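import Pool.Agent.H73.FW.Reset
import Pool.Agent.H9.PRG.Final

/-!
From steps to blocks of steps.
-/

open Finset
open scoped BigOperators

namespace Pool.Agent.H73.FW

open Pool.Agent.H9.PRG

section rs

variable {A : Type*} {V : Type}

/-- Number of writes left, and memory. -/
noncomputable def rs (F : ℕ → A → V → V) (fl : ℕ → A → Prop) (K : ℕ) (v0 : V) (μ : ℕ → ℕ)
    (X : ℕ → A) : ℕ → ℕ × V
  | 0 => (K, v0)
  | t + 1 => open Classical in
      (if fl t (X (μ t)) then K
        else if F t (X (μ t)) (rs F fl K v0 μ X t).2 = (rs F fl K v0 μ X t).2 then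
          (rs F fl K v0 μ X t).1 else (rs F fl K v0 μ X t).1 - 1,
        F t (X (μ t)) (rs F fl K v0 μ X t).2)

variable (F : ℕ → A → V → V) (fl : ℕ → A → Prop) (K : ℕ) (v0 : V) (μ : ℕ → ℕ) (X : ℕ → A)

lemma rs_le (t : ℕ) : (rs F fl K v0 μ X t).1 ≤ K := by
  classical
  induction t with
  | zero => exact le_rfl
  | succ t ih =>
    rw [rs]
    dsimp only
    split_ifs <;> omega

lemma rs_congr {F' : ℕ → A → V → V} {fl' : ℕ → A → Prop} : ∀ J,
    (∀ j < J, F j (X (μ j)) = F' j (X (μ j))) → (∀ j < J, (fl j (X (μ j)) ↔ fl' j (X (μ j)))) →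
    rs F fl K v0 μ X J = rs F' fl' K v0 μ X J := by
  classical
  intro J
  induction J with
  | zero => intro _ _; rfl
  | succ J ih =>
    intro h1 h2
    rw [rs, rs, ih (fun j hj => h1 j (by omega)) (fun j hj => h2 j (by omega)), h1 J (by omega)]
    simp only [h2 J (by omega)]

lemma rs_idle (J : ℕ) : ∀ d, (∀ j, J ≤ j → j < J + d → F j (X (μ j)) = id) →
    (∀ j, J ≤ j → j < J + d → ¬ fl j (X (μ j))) →
    rs F fl K v0 μ X (J + d) = rs F fl K v0 μ X J := by
  classical
  intro d
  induction d with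
  | zero => intro _ _; rfl
  | succ d ih =>
    intro h1 h2
    rw [← Nat.add_assoc, rs, ih (fun j hj hj' => h1 j hj (by omega))
      (fun j hj hj' => h2 j hj (by omega)), h1 (J + d) (by omega) (by omega)]
    rw [if_neg (h2 (J + d) (by omega) (by omega))]
    simp

/-- A block is flagged if one of its steps is. -/
def sfl (cf : ℕ → A → Prop) (μ : ℕ → ℕ) (T m : ℕ) (y : A) : Prop := ∃ t < T, μ t = m ∧ cf t y

lemma sfl_succ (cf : ℕ → A → Prop) (μ : ℕ → ℕ) (T m : ℕ) (y : A) :
    sfl cf μ (T + 1) m y ↔ sfl cf μ T m y ∨ (μ T = m ∧ cf T y) := by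
  unfold sfl
  constructor
  · rintro ⟨t, h1, h2, h3⟩
    rcases Nat.lt_succ_iff_lt_or_eq.mp h1 with h | h
    · exact Or.inl ⟨t, h, h2, h3⟩
    · subst h; exact Or.inr ⟨h2, h3⟩
  · rintro (⟨t, h1, h2, h3⟩ | ⟨h2, h3⟩)
    · exact ⟨t, by omega, h2, h3⟩
    · exact ⟨T, by omega, h2, h3⟩

/-- The blocks compute the same memory, and leave at least as many writes. -/
lemma rs_block (f : ℕ → A → V → V) (cf : ℕ → A → Prop) (hμ : Monotone μ) : ∀ T,
    (rs (seg f μ T) (sfl cf μ T) K v0 id X (μ (T - 1) + 1)).2 = (rs f cf K v0 μ X T).2 ∧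
    (rs f cf K v0 μ X T).1 ≤ (rs (seg f μ T) (sfl cf μ T) K v0 id X (μ (T - 1) + 1)).1 := by
  classical
  intro T
  induction T with
  | zero =>
    have h := rs_idle (seg f μ 0) (sfl cf μ 0) K v0 id X 0 (μ (0 - 1) + 1)
      (fun j _ _ => rfl) (fun j _ _ => by rintro ⟨t, ht, _⟩; omega)
    rw [Nat.zero_add] at h
    rw [h]
    exact ⟨rfl, le_rfl⟩
  | succ T ih =>
    rw [Nat.add_sub_cancel]
    -- extend the recursion up to block `μ T`
    have h1 : rs (seg f μ T) (sfl cf μ T) K v0 id X (μ T + 1) =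
        rs (seg f μ T) (sfl cf μ T) K v0 id X (μ (T - 1) + 1) := by
      obtain ⟨d, hd⟩ := Nat.exists_eq_add_of_le
        (show μ (T - 1) + 1 ≤ μ T + 1 by have := hμ (show T - 1 ≤ T by omega); omega)
      rw [hd]
      apply rs_idle
      · intro j hj _
        apply seg_id
        intro t ht
        have := hμ (show t ≤ T - 1 by omega)
        omega
      · rintro j hj _ ⟨t, ht, h3, _⟩
        have := hμ (show t ≤ T - 1 by omega)
        omega
    rw [← h1] at ih
    have h2 : rs (seg f μ (T + 1)) (sfl cf μ (T + 1)) K v0 id X (μ T) =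
        rs (seg f μ T) (sfl cf μ T) K v0 id X (μ T) := by
      apply rs_congr
      · intro j hj
        rw [seg, if_neg (by omega)]
      · intro j hj
        rw [sfl_succ]
        constructor
        · rintro (h | ⟨h, _⟩)
          · exact h
          · omega
        · exact Or.inl
    rw [rs] at ih
    rw [rs, rs, h2]
    simp only [id_eq] at ih ⊢
    have h3 : seg f μ (T + 1) (μ T) (X (μ T)) = f T (X (μ T)) ∘ seg f μ T (μ T) (X (μ T)) := by
      rw [seg, if_pos rfl]
    have h4 : sfl cf μ (T + 1) (μ T) (X (μ T)) ↔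
        sfl cf μ T (μ T) (X (μ T)) ∨ cf T (X (μ T)) := by
      rw [sfl_succ]; simp
    simp only [h3, h4, Function.comp_apply]
    have h5 := rs_le f cf K v0 μ X T
    obtain ⟨ih1, ih2⟩ := ih
    generalize rs (seg f μ T) (sfl cf μ T) K v0 id X (μ T) = r0 at ih1 ih2 ⊢
    generalize rs f cf K v0 μ X T = r1 at ih1 ih2 h5 ⊢
    obtain ⟨i0, w0⟩ := r0
    obtain ⟨i1, w1⟩ := r1
    simp only at ih1 ih2 h5 ⊢
    subst ih1
    refine ⟨rfl, ?_⟩
    generalize seg f μ T (μ T) (X (μ T)) w0 = w1 at ih2 ⊢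
    generalize f T (X (μ T)) w1 = w2 at ih2 ⊢
    by_cases c1 : cf T (X (μ T))
    · simp [c1]
    · by_cases c2 : sfl cf μ T (μ T) (X (μ T))
      · simp only [c1, c2, true_or, if_true, if_false]
        split_ifs <;> omega
      · simp only [c1, c2, or_self, if_false] at ih2 ⊢
        by_cases c3 : w2 = w0
        · rw [if_pos c3]
          split_ifs at ih2 ⊢ <;> omega
        · rw [if_neg c3]
          by_cases c4 : w2 = w1
          · rw [if_pos c4]
            rw [if_neg (by rintro rfl; exact c3 c4)] at ih2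
            exact ih2
          · rw [if_neg c4]
            split_ifs at ih2 <;> omega

end rs

section out

variable {A : Type*} {V : Type} (F : ℕ → A → V → V) (fl : ℕ → A → Prop) (e : A → V → ℝ) (ms K : ℕ) (v0 : V)
  (X : ℕ → A)

lemma out_eq_rs : ∀ d j, out F fl e ms K d (rs F fl K v0 id X j).1 j (rs F fl K v0 id X j).2 X =
    if (rs F fl K v0 id X (j + d)).1 = 0 then 1 else e (X ms) (rs F fl K v0 id X (j + d)).2 := by
  classical
  intro d
  induction d with
  | zero => intro j; rfl
  | succ d ih =>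
    intro j
    have h := ih (j + 1)
    rw [out]
    rw [show j + 1 + d = j + (d + 1) by ring] at h
    rw [← h]
    rfl

lemma out_eq : out F fl e ms K (ms + 1) K 0 v0 X =
    if (rs F fl K v0 id X (ms + 1)).1 = 0 then 1 else e (X ms) (rs F fl K v0 id X (ms + 1)).2 := by
  have h := out_eq_rs F fl e ms K v0 X (ms + 1) 0
  rw [Nat.zero_add] at h
  exact h

lemma out_dep : DepOn (Set.Iio (ms + 1)) (out F fl e ms K (ms + 1) K 0 v0) := by
  classical
  have h : ∀ d i j v, DepOn (Set.Ico j (j + d) ∪ {ms}) (out F fl e ms K d i j v) := by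
    intro d
    induction d with
    | zero =>
      intro i j v X Y H
      unfold out
      rw [H ms (by simp)]
    | succ d ih =>
      intro i j v X Y H
      have h1 : X j = Y j := H j (by left; simp)
      unfold out
      rw [h1]
      apply ih
      intro l hl
      apply H
      rcases hl with hl | hl
      · left; simp only [Set.mem_Ico] at hl ⊢; omega
      · right; exact hl
  intro X Y H
  apply h
  intro l hl
  apply H
  simp only [Set.mem_Iio]
  rcases hl with hl | hl
  · simp only [Set.mem_Ico] at hl; omega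
  · simp only [Set.mem_singleton_iff] at hl; omega

end out

section expect

variable {A : Type*} [Fintype A] [Nonempty A]

omit [Nonempty A] in
lemma expect_consR {m : ℕ} (G : (Fin (m + 1) → A) → ℝ) :
    𝔼 x, G x = 𝔼 a : A, 𝔼 y : Fin m → A, G (Fin.cons a y) := by
  rw [← Finset.expect_product', Finset.univ_product_univ]
  exact (Fintype.expect_equiv (Fin.consEquiv (fun _ => A)) _ _ (fun x => rfl)).symm

/-- Overwriting of the coordinates `s, …, s + d - 1`. -/
def ov (s d : ℕ) (X : ℕ → A) (u : Fin d → A) : ℕ → A :=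
  fun j => if h : s ≤ j ∧ j < s + d then u ⟨j - s, by omega⟩ else X j

lemma Ex_eq_expect (h : (ℕ → A) → ℝ) : ∀ (d s : ℕ) (X : ℕ → A),
    Ex s d h X = 𝔼 u : Fin d → A, h (ov s d X u) := by
  intro d
  induction d with
  | zero =>
    intro s X
    have : ∀ u : Fin 0 → A, ov s 0 X u = X := by
      intro u; funext j; unfold ov; rw [dif_neg (by omega)]
    simp only [this, Ex, Fintype.expect_const]
  | succ d ih =>
    intro s X
    rw [expect_consR]
    simp only [Ex]
    refine Finset.expect_congr rfl fun a _ => ?_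
    rw [ih]
    refine Finset.expect_congr rfl fun u _ => ?_
    congr 1
    funext j
    unfold ov
    by_cases h1 : j = s
    · subst h1
      rw [dif_neg (by omega), dif_pos (by omega), Function.update_self]
      have : (⟨j - j, by omega⟩ : Fin (d + 1)) = 0 := by ext; simp
      rw [this, Fin.cons_zero]
    · by_cases h2 : s + 1 ≤ j ∧ j < s + 1 + d
      · rw [dif_pos h2, dif_pos (by omega)]
        have : (⟨j - s, by omega⟩ : Fin (d + 1)) = Fin.succ ⟨j - (s + 1), by omega⟩ := by
          ext; simp only [Fin.val_succ]; omega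
        rw [this, Fin.cons_succ]
      · rw [dif_neg h2, dif_neg (by omega), Function.update_of_ne h1]

lemma E_eq_expect {M : ℕ} {h : (ℕ → A) → ℝ} (hM : DepOn (Set.Iio M) h) (a0 : A) :
    E M h = 𝔼 u : Fin M → A, h (Uf a0 M u) := by
  unfold E
  rw [Ex_eq_expect]
  refine Finset.expect_congr rfl fun u _ => ?_
  apply hM
  intro l hl
  simp only [Set.mem_Iio] at hl
  unfold ov Uf
  rw [dif_pos (by omega), dif_pos hl]
  rfl

lemma E_of_le {M M' : ℕ} (hMM : M ≤ M') {h : (ℕ → A) → ℝ} (hM : DepOn (Set.Iio M) h) :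
    E M' h = E M h := by
  obtain ⟨b, rfl⟩ := Nat.exists_eq_add_of_le hMM
  unfold E
  rw [Ex_split]
  apply Ex_congr
  intro X
  rw [Nat.zero_add]
  apply Ex_of_dep hM
  intro l hl
  simp only [Set.mem_Iio] at hl
  omega

lemma KWI.le {Ω : Type*} [Fintype Ω] {M M' k : ℕ} (hMM : M ≤ M') {Y : Ω → ℕ → A}
    (hY : KWI M' k Y) : KWI M k Y := by
  intro S h1 h2 h h3
  rw [hY S (h1.trans (Finset.range_subset_range.mpr hMM)) h2 h h3]
  apply E_of_le hMM
  apply h3.mono
  intro l hl
  have := h1 hl
  simpa using this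

lemma KWI.mono_k {Ω : Type*} [Fintype Ω] {M k k' : ℕ} (hk : k ≤ k') {Y : Ω → ℕ → A}
    (hY : KWI M k' Y) : KWI M k Y := fun S h1 h2 h h3 => hY S h1 (h2.trans hk) h h3

end expect

end Pool.Agent.H73.FW
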