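import Pool.Agent.H73.FW.Ex

/-!
One-sided Bonferroni polynomials for the first hit of a sequence of independent tests.
-/

open Finset
open scoped BigOperators

namespace Pool.Agent.H73.FW

/-- Upper Bonferroni function for the event without hits, as a function of the number of hits. -/
noncomputable def T (t n : ℕ) : ℝ := if n = 0 then 1 else ((n - 1).choose (2 * t) : ℝ)

/-- Indicator of the event without hits. -/
noncomputable def P0 (n : ℕ) : ℝ := if n = 0 then 1 else 0

lemma P0_le_T (t n : ℕ) : P0 n ≤ T t n := by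
  unfold P0 T
  split_ifs
  · exact le_rfl
  · positivity

lemma P0_nonneg (n : ℕ) : 0 ≤ P0 n := by unfold P0; split_ifs <;> norm_num
lemma T_nonneg (t n : ℕ) : 0 ≤ T t n := (P0_nonneg n).trans (P0_le_T t n)

lemma T_eq_sum (t n : ℕ) : T t n = ∑ r ∈ range (2 * t + 1), (-1 : ℝ) ^ r * (n.choose r : ℝ) := by
  unfold T
  split_ifs with h
  · subst h
    rw [Finset.sum_eq_single 0]
    · simp
    · intro b _ hb
      rw [Nat.choose_eq_zero_of_lt (Nat.pos_of_ne_zero hb)]
      simp
    · intro h'; simp at h'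
  · obtain ⟨m, rfl⟩ := Nat.exists_eq_succ_of_ne_zero h
    have h1 := Int.alternating_sum_range_choose_eq_choose (n := m) (m := 2 * t)
    have h2 : ((∑ r ∈ range (2 * t + 1), (-1 : ℤ) ^ r * ((m + 1).choose r : ℤ) : ℤ) : ℝ) =
      (((-1 : ℤ) ^ (2 * t) * (m.choose (2 * t) : ℤ) : ℤ) : ℝ) := by exact_mod_cast h1
    push_cast at h2
    rw [Nat.succ_sub_one, Nat.succ_eq_add_one, h2]
    rw [pow_mul]
    norm_num

variable {A : Type*}

/-- Number of hits among the tests `s, …, j - 1`. -/
noncomputable def cnt (hit : ℕ → A → Prop) (s j : ℕ) (X : ℕ → A) : ℕ :=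
  open Classical in #{l ∈ Ico s j | hit l (X l)}

/-- Indicator of a hit. -/
noncomputable def ind (hit : ℕ → A → Prop) (j : ℕ) (a : A) : ℝ :=
  open Classical in if hit j a then 1 else 0

lemma ind_nonneg (hit : ℕ → A → Prop) (j : ℕ) (a : A) : 0 ≤ ind hit j a := by
  unfold ind; split_ifs <;> norm_num

lemma ind_le_one (hit : ℕ → A → Prop) (j : ℕ) (a : A) : ind hit j a ≤ 1 := by
  unfold ind; split_ifs <;> norm_num

lemma cnt_self (hit : ℕ → A → Prop) (s : ℕ) (X : ℕ → A) : cnt hit s s X = 0 := by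
  unfold cnt; simp

lemma cnt_succ (hit : ℕ → A → Prop) {s j : ℕ} (hs : s ≤ j) (X : ℕ → A) :
    cnt hit s (j + 1) X = cnt hit s j X + (open Classical in if hit j (X j) then 1 else 0) := by
  classical
  unfold cnt
  have e : Ico s (j + 1) = insert j (Ico s j) := by
    ext l
    simp only [Finset.mem_Ico, Finset.mem_insert]
    omega
  rw [e, Finset.filter_insert]
  split_ifs with h
  · rw [Finset.card_insert_of_notMem (by simp)]
  · simp

lemma cnt_dep (hit : ℕ → A → Prop) (s j : ℕ) (X Y : ℕ → A)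
    (h : ∀ l, s ≤ l → l < j → X l = Y l) : cnt hit s j X = cnt hit s j Y := by
  classical
  unfold cnt
  congr 1
  apply Finset.filter_congr
  intro l hl
  rw [Finset.mem_Ico] at hl
  rw [h l hl.1 hl.2]

/-- The telescoping identity behind the first-hit decomposition. -/
lemma T_telescope (hit : ℕ → A → Prop) (t s d : ℕ) (X : ℕ → A) :
    ∑ j ∈ Ico s (s + d), T t (cnt hit s j X) * ind hit j (X j) + T t (cnt hit s (s + d) X) =
      1 + ((cnt hit s (s + d) X).choose (2 * t + 1) : ℝ) := by
  classical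
  induction d with
  | zero => simp [cnt_self, T]
  | succ d ih =>
    rw [← Nat.add_assoc, Finset.sum_Ico_succ_top (by omega), cnt_succ hit (by omega)]
    set n := cnt hit s (s + d) X with hn
    have h1 : ∑ j ∈ Ico s (s + d), T t (cnt hit s j X) * ind hit j (X j) =
        1 + (n.choose (2 * t + 1) : ℝ) - T t n := by linarith
    rw [h1]
    unfold ind
    split_ifs with h
    · have h2 : T t (n + 1) = (n.choose (2 * t) : ℝ) := by unfold T; simp
      rw [h2, mul_one, Nat.choose_succ_succ' n (2 * t)]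
      push_cast
      ring
    · rw [Nat.add_zero]; ring

lemma P_telescope (hit : ℕ → A → Prop) (s d : ℕ) (X : ℕ → A) :
    ∑ j ∈ Ico s (s + d), P0 (cnt hit s j X) * ind hit j (X j) + P0 (cnt hit s (s + d) X) = 1 := by
  classical
  induction d with
  | zero => simp [cnt_self, P0]
  | succ d ih =>
    rw [← Nat.add_assoc, Finset.sum_Ico_succ_top (by omega), cnt_succ hit (by omega)]
    set n := cnt hit s (s + d) X with hn
    have h1 : ∑ j ∈ Ico s (s + d), P0 (cnt hit s j X) * ind hit j (X j) = 1 - P0 n := by linarith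
    rw [h1]
    unfold ind
    split_ifs with h
    · unfold P0; simp
    · rw [Nat.add_zero]; ring

lemma choose_le_three_pow (n r : ℕ) : (n.choose r : ℝ) * 2 ^ r ≤ 3 ^ n := by
  have h := add_pow (2 : ℝ) 1 n
  norm_num at h
  rw [h]
  by_cases hr : r ≤ n
  · calc (n.choose r : ℝ) * 2 ^ r = 2 ^ r * (n.choose r : ℝ) := mul_comm _ _
      _ ≤ _ := Finset.single_le_sum (f := fun m => (2 : ℝ) ^ m * (n.choose m : ℝ))
        (fun _ _ => by positivity) (Finset.mem_range.mpr (by omega))
  · rw [Nat.choose_eq_zero_of_lt (by omega)]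
    simp only [Nat.cast_zero, zero_mul]
    positivity

section jun

lemma choose_cnt_jun {M : ℕ} (hit : ℕ → A → Prop) (s : ℕ) : ∀ (d r : ℕ), s + d ≤ M →
    (fun X => ((cnt hit s (s + d) X).choose r : ℝ)) ∈ Jun A M r := by
  classical
  intro d
  induction d with
  | zero =>
    intro r _
    simp only [Nat.add_zero, cnt_self]
    exact Jun.const M r _
  | succ d ih =>
    intro r hM
    rcases r with _ | r
    · simp only [Nat.choose_zero_right]
      exact Jun.const M 0 _
    · have e : (fun X => ((cnt hit s (s + (d + 1)) X).choose (r + 1) : ℝ)) = fun X =>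
          ((cnt hit s (s + d) X).choose (r + 1) : ℝ) +
            ind hit (s + d) (X (s + d)) * ((cnt hit s (s + d) X).choose r : ℝ) := by
        funext X
        rw [← Nat.add_assoc, cnt_succ hit (by omega)]
        unfold ind
        split_ifs
        · rw [Nat.choose_succ_succ']; push_cast; ring
        · simp
      rw [e]
      refine Jun.add (ih (r + 1) (by omega)) ?_
      rw [Nat.add_comm r 1]
      exact Jun.mul (Jun.single (by omega) (ind hit (s + d))) (ih r (by omega))

lemma T_cnt_jun {M : ℕ} (hit : ℕ → A → Prop) (t : ℕ) {s j : ℕ} (hs : s ≤ j) (hj : j ≤ M) :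
    (fun X => T t (cnt hit s j X)) ∈ Jun A M (2 * t) := by
  obtain ⟨d, rfl⟩ := Nat.exists_eq_add_of_le hs
  simp only [T_eq_sum]
  refine Jun.sum _ fun r hr => Jun.cmul _ ?_
  exact Jun.mono (by have := Finset.mem_range.mp hr; omega) (choose_cnt_jun hit s d r hj)

end jun

section expectation

variable [Fintype A] [Nonempty A]

/-- hazard of a test -/
noncomputable def haz (hit : ℕ → A → Prop) (j : ℕ) : ℝ := 𝔼 a, ind hit j a

lemma haz_nonneg (hit : ℕ → A → Prop) (j : ℕ) : 0 ≤ haz hit j :=
  Finset.le_expect univ_nonempty fun a _ => ind_nonneg hit j a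

lemma haz_le_one (hit : ℕ → A → Prop) (j : ℕ) : haz hit j ≤ 1 :=
  Finset.expect_le univ_nonempty fun a _ => ind_le_one hit j a

lemma E_prod {M : ℕ} (φ : ℕ → A → ℝ) (s : ℕ) : ∀ d, s + d ≤ M →
    E M (fun X => ∏ l ∈ Ico s (s + d), φ l (X l)) = ∏ l ∈ Ico s (s + d), 𝔼 a, φ l a := by
  intro d
  induction d with
  | zero => intro _; simp [E_const]
  | succ d ih =>
    intro hM
    rw [← Nat.add_assoc, Finset.prod_Ico_succ_top (by omega), ← ih (by omega)]
    have e : E M (fun X => ∏ l ∈ Ico s (s + d + 1), φ l (X l)) =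
        E M (fun X => (∏ l ∈ Ico s (s + d), φ l (X l)) * (fun (a : A) (_ : ℕ → A) => φ (s + d) a) (X (s + d)) X) :=
      E_congr fun X => by rw [Finset.prod_Ico_succ_top (by omega)]
    have hg : DepOn (Set.Iio (s + d)) (fun X : ℕ → A => ∏ l ∈ Ico s (s + d), φ l (X l)) := by
      intro X Y H
      refine Finset.prod_congr rfl fun l hl => ?_
      rw [Finset.mem_Ico] at hl
      rw [H l (by simp; omega)]
    have h3 := E_three (M := M) (show s + d < M by omega) hg
      (fun (a : A) (_ : ℕ → A) => φ (s + d) a) (fun a => DepOn.const _ _) (fun a => DepOn.const _ _)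
    rw [e]
    refine h3.trans ?_
    congr 1
    refine Finset.expect_congr rfl fun a _ => ?_
    exact E_const M _

omit [Fintype A] [Nonempty A] in
lemma three_pow_cnt (hit : ℕ → A → Prop) (s d : ℕ) (X : ℕ → A) :
    (3 : ℝ) ^ cnt hit s (s + d) X = ∏ l ∈ Ico s (s + d), (1 + 2 * ind hit l (X l)) := by
  classical
  induction d with
  | zero => simp [cnt_self]
  | succ d ih =>
    rw [← Nat.add_assoc, Finset.prod_Ico_succ_top (by omega), cnt_succ hit (by omega), pow_add, ih]
    congr 1
    unfold ind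
    split_ifs <;> norm_num

omit [Fintype A] [Nonempty A] in
lemma P0_cnt (hit : ℕ → A → Prop) (s d : ℕ) (X : ℕ → A) :
    P0 (cnt hit s (s + d) X) = ∏ l ∈ Ico s (s + d), (1 - ind hit l (X l)) := by
  classical
  induction d with
  | zero => simp [cnt_self, P0]
  | succ d ih =>
    rw [← Nat.add_assoc, Finset.prod_Ico_succ_top (by omega), cnt_succ hit (by omega), ← ih]
    unfold ind P0
    split_ifs <;> simp_all

lemma E_three_pow {M : ℕ} (hit : ℕ → A → Prop) {s j : ℕ} (hs : s ≤ j) (hj : j ≤ M) :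
    E M (fun X => (3 : ℝ) ^ cnt hit s j X) ≤ Real.exp (2 * ∑ l ∈ Ico s j, haz hit l) := by
  obtain ⟨d, rfl⟩ := Nat.exists_eq_add_of_le hs
  rw [E_congr (three_pow_cnt hit s d), E_prod (fun l a => 1 + 2 * ind hit l a) s d hj,
    Finset.mul_sum, Real.exp_sum]
  apply Finset.prod_le_prod
  · intro l _
    apply Finset.le_expect univ_nonempty
    intro a _
    have := ind_nonneg hit l a
    linarith
  · intro l _
    have : 𝔼 a, (1 + 2 * ind hit l a) = 2 * haz hit l + 1 := by
      rw [Finset.expect_add_distrib, Fintype.expect_const, ← Finset.mul_expect]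
      unfold haz; ring_nf
    rw [this]
    exact Real.add_one_le_exp _

lemma E_P0 {M : ℕ} (hit : ℕ → A → Prop) {s j : ℕ} (hs : s ≤ j) (hj : j ≤ M) :
    E M (fun X => P0 (cnt hit s j X)) ≤ Real.exp (-∑ l ∈ Ico s j, haz hit l) := by
  obtain ⟨d, rfl⟩ := Nat.exists_eq_add_of_le hs
  rw [E_congr (P0_cnt hit s d), E_prod (fun l a => 1 - ind hit l a) s d hj, ← Finset.sum_neg_distrib,
    Real.exp_sum]
  apply Finset.prod_le_prod
  · intro l _
    apply Finset.le_expect univ_nonempty
    intro a _
    have := ind_le_one hit l a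
    linarith
  · intro l _
    have : 𝔼 a, (1 - ind hit l a) = -haz hit l + 1 := by
      rw [Finset.expect_sub_distrib, Fintype.expect_const]
      unfold haz; ring_nf
    rw [this]
    exact Real.add_one_le_exp _

lemma E_choose {M : ℕ} (hit : ℕ → A → Prop) (t : ℕ) {s j : ℕ} (hs : s ≤ j) (hj : j ≤ M) (c : ℝ)
    (hc : ∑ l ∈ Ico s j, haz hit l ≤ c) :
    E M (fun X => ((cnt hit s j X).choose (2 * t + 1) : ℝ)) ≤ Real.exp (2 * c) / 2 ^ (2 * t + 1) := by
  have h1 : E M (fun X => ((cnt hit s j X).choose (2 * t + 1) : ℝ)) ≤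
      E M (fun X => (1 / 2 ^ (2 * t + 1)) * (3 : ℝ) ^ cnt hit s j X) := by
    apply E_mono
    intro X
    have := choose_le_three_pow (cnt hit s j X) (2 * t + 1)
    rw [div_mul_eq_mul_div, one_mul, le_div_iff₀ (by positivity)]
    exact this
  refine h1.trans ?_
  rw [E_const_mul]
  have h2 := E_three_pow (M := M) hit hs hj
  have h3 : Real.exp (2 * ∑ l ∈ Ico s j, haz hit l) ≤ Real.exp (2 * c) :=
    Real.exp_le_exp.mpr (by linarith)
  calc 1 / 2 ^ (2 * t + 1) * E M (fun X => (3 : ℝ) ^ cnt hit s j X) ≤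
        1 / 2 ^ (2 * t + 1) * Real.exp (2 * c) := by
        apply mul_le_mul_of_nonneg_left (h2.trans h3); positivity
    _ = _ := by ring

end expectation

end Pool.Agent.H73.FW
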