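import Pool.Agent.H9.PRG.Defs

/-!
# Programs whose long-term memory is rarely changed

Ordered read-once branching programs, acceptance probabilities and explicitness are defined in
`Pool.Agent.H9.PRG.Defs`.
-/

open Finset

namespace Pool.Agent.H73.FW

open Pool.Agent.H9.PRG

/-- A computation of length `n` whose memory consists of the last `L` bits read and of an element
of the set `V` (its long-term memory). Step `t` reads the bit `x t` and changes the long-term
memory by the map `upd t x : V → V`, which is determined by the last `L` bits read before the step
and the bit read in the step. After `n` steps the input is accepted if the long-term memory belongs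
to `acc x`, a set which is determined by the last `L` bits read. There is no restriction on the set
`V` and on the maps. -/
structure WinMem (n L : ℕ) (V : Type) where
  /-- the initial value of the long-term memory -/
  init : V
  /-- the change of the long-term memory in step `t` -/
  upd : ℕ → (ℕ → Bool) → V → V
  /-- the accepted values -/
  acc : (ℕ → Bool) → Set V
  upd_local : ∀ t < n, ∀ x x' : ℕ → Bool, (∀ j, t ≤ j + L → j ≤ t → x j = x' j) →
    upd t x = upd t x'
  acc_local : ∀ x x' : ℕ → Bool, (∀ j, n ≤ j + L → j < n → x j = x' j) → acc x = acc x'

namespace WinMem

variable {n L : ℕ} {V : Type}

/-- The long-term memory after `t` steps on the input `x`. -/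
def mem (D : WinMem n L V) (x : ℕ → Bool) : ℕ → V
  | 0 => D.init
  | t + 1 => D.upd t x (D.mem x t)

/-- The number of steps among the first `t` steps that changed the long-term memory, where only the
steps after the last constant step are counted; a step is constant if its map `upd t x` is
constant. -/
noncomputable def changes (D : WinMem n L V) (x : ℕ → Bool) : ℕ → ℕ
  | 0 => 0
  | t + 1 => open Classical in
      if ∃ w, ∀ v, D.upd t x v = w then 0
      else if D.upd t x (D.mem x t) = D.mem x t then D.changes x t
      else D.changes x t + 1

/-- `D` computes the output of the program `P`. -/
def Computes (D : WinMem n L V) (P : ROBP n) : Prop :=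
  ∀ x : ℕ → Bool, P.run x = true ↔ D.mem x n ∈ D.acc x

/-- The probability that on a uniformly random input the long-term memory is changed more than `K`
times after the last constant step. -/
noncomputable def probMore (D : WinMem n L V) (K : ℕ) : ℝ :=
  (#{x : Fin n → Bool | K < D.changes (seqOf x) n} : ℝ) / 2 ^ n

/-- The expected number of changes of the long-term memory after the last constant step, on a
uniformly random input. -/
noncomputable def expChanges (D : WinMem n L V) : ℝ :=
  (∑ x : Fin n → Bool, (D.changes (seqOf x) n : ℝ)) / 2 ^ n

end WinMem

end Pool.Agent.H73.FW
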