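import Mathlib

/-!
Averages over finitely many coordinates of a sequence, functions of few coordinates, and
bounded independence.
-/

open Finset
open scoped BigOperators

namespace Pool.Agent.H73.FW

variable {A : Type*} [Fintype A]

/-- Average over the coordinates `s, …, s + d - 1`. -/
noncomputable def Ex : ℕ → ℕ → ((ℕ → A) → ℝ) → (ℕ → A) → ℝ
  | _, 0, h => h
  | s, d + 1, h => fun X => 𝔼 a, Ex (s + 1) d h (Function.update X s a)

/-- `h` depends only on the coordinates in `S`. -/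
def DepOn {A : Type*} (S : Set ℕ) (h : (ℕ → A) → ℝ) : Prop :=
  ∀ X Y : ℕ → A, (∀ l ∈ S, X l = Y l) → h X = h Y

lemma DepOn.mono {A : Type*} {S T : Set ℕ} {h : (ℕ → A) → ℝ} (hS : DepOn S h) (hST : S ⊆ T) :
    DepOn T h := fun X Y hXY => hS X Y fun l hl => hXY l (hST hl)

lemma DepOn.mul {A : Type*} {S T : Set ℕ} {g h : (ℕ → A) → ℝ} (hg : DepOn S g) (hh : DepOn T h) :
    DepOn (S ∪ T) (fun X => g X * h X) := fun X Y hXY => by
  show g X * h X = g Y * h Y
  rw [hg X Y fun l hl => hXY l (Or.inl hl), hh X Y fun l hl => hXY l (Or.inr hl)]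

lemma DepOn.add {A : Type*} {S : Set ℕ} {g h : (ℕ → A) → ℝ} (hg : DepOn S g) (hh : DepOn S h) :
    DepOn S (fun X => g X + h X) := fun X Y hXY => by
  show g X + h X = g Y + h Y
  rw [hg X Y hXY, hh X Y hXY]

lemma DepOn.const {A : Type*} (S : Set ℕ) (c : ℝ) : DepOn (A := A) S (fun _ => c) :=
  fun _ _ _ => rfl

lemma Ex_add (s d : ℕ) (g h : (ℕ → A) → ℝ) (X : ℕ → A) :
    Ex s d (fun X => g X + h X) X = Ex s d g X + Ex s d h X := by
  induction d generalizing s X with
  | zero => rfl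
  | succ d ih =>
    simp only [Ex, ih]
    exact Finset.expect_add_distrib _ _ _

lemma Ex_sub (s d : ℕ) (g h : (ℕ → A) → ℝ) (X : ℕ → A) :
    Ex s d (fun X => g X - h X) X = Ex s d g X - Ex s d h X := by
  induction d generalizing s X with
  | zero => rfl
  | succ d ih =>
    simp only [Ex, ih]
    exact Finset.expect_sub_distrib _ _ _

lemma Ex_const_mul (s d : ℕ) (c : ℝ) (h : (ℕ → A) → ℝ) (X : ℕ → A) :
    Ex s d (fun X => c * h X) X = c * Ex s d h X := by
  induction d generalizing s X with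
  | zero => rfl
  | succ d ih =>
    simp only [Ex, ih]
    rw [Finset.mul_expect]

lemma Ex_sum {ι : Type*} (s d : ℕ) (I : Finset ι) (h : ι → (ℕ → A) → ℝ) (X : ℕ → A) :
    Ex s d (fun X => ∑ i ∈ I, h i X) X = ∑ i ∈ I, Ex s d (h i) X := by
  induction d generalizing s X with
  | zero => rfl
  | succ d ih =>
    simp only [Ex, ih]
    exact Finset.expect_sum_comm _ _ _

lemma Ex_congr {s d : ℕ} {g h : (ℕ → A) → ℝ} (H : ∀ X, g X = h X) (X : ℕ → A) :
    Ex s d g X = Ex s d h X := by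
  have : g = h := funext H
  rw [this]

variable [Nonempty A]

lemma Ex_const (s d : ℕ) (c : ℝ) (X : ℕ → A) : Ex s d (fun _ => c) X = c := by
  induction d generalizing s X with
  | zero => rfl
  | succ d ih =>
    simp only [Ex, ih]
    exact Fintype.expect_const _

omit [Nonempty A] in
lemma Ex_mono {s d : ℕ} {g h : (ℕ → A) → ℝ} (H : ∀ X, g X ≤ h X) (X : ℕ → A) :
    Ex s d g X ≤ Ex s d h X := by
  induction d generalizing s X with
  | zero => exact H X
  | succ d ih =>
    simp only [Ex]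
    exact Finset.expect_le_expect fun a _ => ih _

lemma Ex_nonneg {s d : ℕ} {h : (ℕ → A) → ℝ} (H : ∀ X, 0 ≤ h X) (X : ℕ → A) :
    0 ≤ Ex s d h X := by
  rw [← Ex_const s d 0 X]
  exact Ex_mono H X

omit [Nonempty A] in
lemma Ex_split (s a b : ℕ) (h : (ℕ → A) → ℝ) (X : ℕ → A) :
    Ex s (a + b) h X = Ex s a (Ex (s + a) b h) X := by
  induction a generalizing s X with
  | zero => simp [Ex]
  | succ a ih =>
    rw [show a + 1 + b = (a + b) + 1 by ring]
    simp only [Ex]
    refine Finset.expect_congr rfl fun c _ => ?_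
    rw [ih, show s + 1 + a = s + (a + 1) by ring]

omit [Nonempty A] in
/-- The average does not depend on coordinates which are averaged or not used. -/
lemma Ex_rel {S : Set ℕ} {h : (ℕ → A) → ℝ} (hS : DepOn S h) (d : ℕ) : ∀ (s : ℕ) (X Y : ℕ → A),
    (∀ l ∈ S, ¬ (s ≤ l ∧ l < s + d) → X l = Y l) → Ex s d h X = Ex s d h Y := by
  induction d with
  | zero => intro s X Y H; exact hS X Y fun l hl => H l hl (by omega)
  | succ d ih =>
    intro s X Y H
    simp only [Ex]
    refine Finset.expect_congr rfl fun a _ => ?_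
    apply ih
    intro l hl hl'
    by_cases hls : l = s
    · subst hls; simp
    · rw [Function.update_of_ne hls, Function.update_of_ne hls]
      exact H l hl (by omega)

omit [Nonempty A] in
/-- A factor which does not depend on the averaged coordinates. -/
lemma Ex_mul_left {S : Set ℕ} {g h : (ℕ → A) → ℝ} (hS : DepOn S g) (d : ℕ) :
    ∀ (s : ℕ), (∀ l ∈ S, ¬ (s ≤ l ∧ l < s + d)) → ∀ X : ℕ → A,
    Ex s d (fun X => g X * h X) X = g X * Ex s d h X := by
  induction d with
  | zero => intro s _ X; rfl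
  | succ d ih =>
    intro s H X
    simp only [Ex]
    rw [Finset.mul_expect]
    refine Finset.expect_congr rfl fun a _ => ?_
    rw [ih (s + 1) (fun l hl hl' => H l hl (by omega))]
    congr 1
    apply hS
    intro l hl
    rw [Function.update_of_ne]
    rintro rfl
    exact H l hl (by omega)

/-- The average over coordinates which are not used. -/
lemma Ex_of_dep {S : Set ℕ} {h : (ℕ → A) → ℝ} (hS : DepOn S h) (s d : ℕ)
    (H : ∀ l ∈ S, ¬ (s ≤ l ∧ l < s + d)) (X : ℕ → A) : Ex s d h X = h X := by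
  have h1 := Ex_mul_left (g := h) (h := fun _ => 1) hS d s H X
  simp only [mul_one] at h1
  rw [h1, Ex_const, mul_one]

/-- A fixed sequence. -/
noncomputable def X0 (A : Type*) [Nonempty A] : ℕ → A := fun _ => Classical.arbitrary A

/-- The expectation of a function of the coordinates below `M`. -/
noncomputable def E (M : ℕ) (h : (ℕ → A) → ℝ) : ℝ := Ex 0 M h (X0 A)

lemma E_add (M : ℕ) (g h : (ℕ → A) → ℝ) : E M (fun X => g X + h X) = E M g + E M h := Ex_add _ _ _ _ _
lemma E_sub (M : ℕ) (g h : (ℕ → A) → ℝ) : E M (fun X => g X - h X) = E M g - E M h := Ex_sub _ _ _ _ _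
lemma E_const_mul (M : ℕ) (c : ℝ) (h : (ℕ → A) → ℝ) : E M (fun X => c * h X) = c * E M h :=
  Ex_const_mul _ _ _ _ _
lemma E_sum {ι : Type*} (M : ℕ) (I : Finset ι) (h : ι → (ℕ → A) → ℝ) :
    E M (fun X => ∑ i ∈ I, h i X) = ∑ i ∈ I, E M (h i) := Ex_sum _ _ _ _ _
lemma E_const (M : ℕ) (c : ℝ) : E M (fun _ : ℕ → A => c) = c := Ex_const _ _ _ _
lemma E_mono {M : ℕ} {g h : (ℕ → A) → ℝ} (H : ∀ X, g X ≤ h X) : E M g ≤ E M h := Ex_mono H _
lemma E_nonneg {M : ℕ} {h : (ℕ → A) → ℝ} (H : ∀ X, 0 ≤ h X) : 0 ≤ E M h := Ex_nonneg H _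
lemma E_congr {M : ℕ} {g h : (ℕ → A) → ℝ} (H : ∀ X, g X = h X) : E M g = E M h := Ex_congr H _

/-- Product formula: a function of the coordinates before `j` times a function of the
coordinates from `j` on. -/
lemma E_mul {M j : ℕ} (hj : j ≤ M) {g h : (ℕ → A) → ℝ} (hg : DepOn (Set.Iio j) g)
    (hh : DepOn (Set.Ici j) h) (hhM : DepOn (Set.Iio M) h) :
    E M (fun X => g X * h X) = E M g * E M h := by
  obtain ⟨b, rfl⟩ := Nat.exists_eq_add_of_le hj
  unfold E
  rw [Ex_split, Ex_split, Ex_split]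
  simp only [Nat.zero_add]
  have hdisj : ∀ l ∈ Set.Iio j, ¬ (j ≤ l ∧ l < j + b) := by
    intro l hl h; simp at hl; omega
  have h1 : ∀ X, Ex j b (fun X => g X * h X) X = g X * Ex j b h X := Ex_mul_left hg b j hdisj
  have h2 : ∀ X, Ex j b g X = g X := Ex_of_dep hg j b hdisj
  have h3 : ∀ X, Ex j b h X = Ex j b h (X0 A) := by
    intro X
    have hS : DepOn (Set.Ico j (j + b)) h := by
      intro X Y H
      have : h X = h (fun l => if l < j + b then X l else Y l) := by
        apply hhM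
        intro l hl
        simp only [Set.mem_Iio] at hl
        simp [hl]
      rw [this]
      apply hh
      intro l hl
      simp only [Set.mem_Ici] at hl
      by_cases h' : l < j + b
      · simp only [h', if_true]; exact H l ⟨hl, h'⟩
      · simp only [h', if_false]
    apply Ex_rel hS
    intro l hl hn
    exact absurd ⟨hl.1, hl.2⟩ hn
  rw [Ex_congr h1, Ex_congr h2]
  rw [Ex_congr (fun X => by rw [h3 X] : ∀ X, g X * Ex j b h X = g X * Ex j b h (X0 A))]
  rw [Ex_congr h3, Ex_const]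
  rw [Ex_congr (fun X => mul_comm _ _ : ∀ X, g X * Ex j b h (X0 A) = Ex j b h (X0 A) * g X)]
  rw [Ex_const_mul]
  ring

/-- Expectation of a function of coordinate `j` and of the later coordinates. -/
lemma E_one {M j : ℕ} (hj : j < M) (h : A → (ℕ → A) → ℝ)
    (hh : ∀ a, DepOn (Set.Ioi j) (h a)) (hhM : ∀ a, DepOn (Set.Iio M) (h a)) :
    E M (fun X => h (X j) X) = 𝔼 a, E M (h a) := by
  obtain ⟨b, rfl⟩ := Nat.exists_eq_add_of_le (show j + 1 ≤ M from hj)
  unfold E
  -- average over the coordinates after `j`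
  have hS : ∀ a, DepOn (Set.Ico (j + 1) (j + 1 + b)) (h a) := by
    intro a X Y H
    have : h a X = h a (fun l => if l < j + 1 + b then X l else Y l) := by
      apply hhM
      intro l hl
      simp only [Set.mem_Iio] at hl
      simp [hl]
    rw [this]
    apply hh
    intro l hl
    simp only [Set.mem_Ioi] at hl
    by_cases h' : l < j + 1 + b
    · simp only [h', if_true]; exact H l ⟨hl, h'⟩
    · simp only [h', if_false]
  have h1 : ∀ a X, Ex (j + 1) b (h a) X = Ex (j + 1) b (h a) (X0 A) := by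
    intro a X
    apply Ex_rel (hS a)
    intro l hl hn
    exact absurd ⟨hl.1, hl.2⟩ hn
  have h2 : ∀ (b s : ℕ), j < s → ∀ X, Ex s b (fun X => h (X j) X) X = Ex s b (h (X j)) X := by
    intro b
    induction b with
    | zero => intro s _ X; rfl
    | succ b ih =>
      intro s hs X
      simp only [Ex]
      refine Finset.expect_congr rfl fun a _ => ?_
      rw [ih (s + 1) (by omega)]
      rw [Function.update_of_ne (by omega : j ≠ s)]
  rw [Ex_split]
  simp only [Nat.zero_add]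
  have h3 : ∀ X, Ex (j + 1) b (fun X => h (X j) X) X = (fun a => Ex (j + 1) b (h a) (X0 A)) (X j) := by
    intro X
    rw [h2 b (j + 1) (by omega), h1]
  rw [Ex_congr h3, Ex_split 0 j 1]
  have h4 : ∀ X : ℕ → A, Ex (0 + j) 1 (fun X => (fun a => Ex (j + 1) b (h a) (X0 A)) (X j)) X =
      𝔼 a, Ex (j + 1) b (h a) (X0 A) := by
    intro X
    simp only [Nat.zero_add, Ex, Function.update_self]
  rw [Ex_congr h4, Ex_const]
  refine Finset.expect_congr rfl fun a _ => ?_
  rw [Ex_split]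
  simp only [Nat.zero_add]
  rw [Ex_congr (h1 a), Ex_const]

/-- Three blocks: the coordinates before `j`, the coordinate `j`, and the later ones. -/
lemma E_three {M j : ℕ} (hj : j < M) {g : (ℕ → A) → ℝ} (hg : DepOn (Set.Iio j) g)
    (h : A → (ℕ → A) → ℝ)
    (hh : ∀ a, DepOn (Set.Ioi j) (h a)) (hhM : ∀ a, DepOn (Set.Iio M) (h a)) :
    E M (fun X => g X * h (X j) X) = E M g * 𝔼 a, E M (h a) := by
  rw [E_mul hj.le hg, E_one hj h hh hhM]
  · intro X Y H
    show h (X j) X = h (Y j) Y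
    rw [H j (by simp)]
    exact hh _ _ _ fun l hl => H l (by simp only [Set.mem_Ioi] at hl; simp only [Set.mem_Ici]; omega)
  · intro X Y H
    show h (X j) X = h (Y j) Y
    rw [H j hj]
    exact hhM _ _ _ H

/-- Functions of at most `k` of the coordinates below `M`, and their linear combinations. -/
def Jun (A : Type*) (M k : ℕ) : Submodule ℝ ((ℕ → A) → ℝ) :=
  Submodule.span ℝ {h | ∃ S : Finset ℕ, S ⊆ range M ∧ #S ≤ k ∧ DepOn (↑S) h}

lemma Jun.mono {A : Type*} {M k l : ℕ} (h : k ≤ l) : Jun A M k ≤ Jun A M l := by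
  apply Submodule.span_mono
  rintro g ⟨S, h1, h2, h3⟩
  exact ⟨S, h1, h2.trans h, h3⟩

lemma Jun.of {A : Type*} {M k : ℕ} {h : (ℕ → A) → ℝ} (S : Finset ℕ) (h1 : S ⊆ range M)
    (h2 : #S ≤ k) (h3 : DepOn (↑S) h) : h ∈ Jun A M k := Submodule.subset_span ⟨S, h1, h2, h3⟩

lemma Jun.const {A : Type*} (M k : ℕ) (c : ℝ) : (fun _ => c) ∈ Jun A M k :=
  Jun.of ∅ (by simp) (by simp) (DepOn.const _ c)

lemma Jun.single {A : Type*} {M j : ℕ} (hj : j < M) (φ : A → ℝ) : (fun X => φ (X j)) ∈ Jun A M 1 :=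
  Jun.of {j} (by simpa using hj) (by simp) (fun X Y H => by
    show φ (X j) = φ (Y j)
    rw [H j (by simp)])

lemma Jun.mul {A : Type*} {M k l : ℕ} {g h : (ℕ → A) → ℝ} (hg : g ∈ Jun A M k)
    (hh : h ∈ Jun A M l) : (fun X => g X * h X) ∈ Jun A M (k + l) := by
  classical
  have h1 : g * h ∈ Jun A M k * Jun A M l := Submodule.mul_mem_mul hg hh
  unfold Jun at h1
  rw [Submodule.span_mul_span] at h1
  refine Submodule.span_mono ?_ h1
  rintro _ ⟨a, ⟨S, hS1, hS2, hS3⟩, b, ⟨T, hT1, hT2, hT3⟩, rfl⟩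
  refine ⟨S ∪ T, Finset.union_subset hS1 hT1, (Finset.card_union_le _ _).trans (by omega), ?_⟩
  rw [Finset.coe_union]
  exact hS3.mul hT3

lemma Jun.add {A : Type*} {M k : ℕ} {g h : (ℕ → A) → ℝ} (hg : g ∈ Jun A M k)
    (hh : h ∈ Jun A M k) : (fun X => g X + h X) ∈ Jun A M k := Submodule.add_mem _ hg hh

lemma Jun.cmul {A : Type*} {M k : ℕ} {h : (ℕ → A) → ℝ} (c : ℝ)
    (hh : h ∈ Jun A M k) : (fun X => c * h X) ∈ Jun A M k := Submodule.smul_mem _ c hh

lemma Jun.sum {A : Type*} {M k : ℕ} {ι : Type*} (I : Finset ι) {h : ι → (ℕ → A) → ℝ}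
    (hh : ∀ i ∈ I, h i ∈ Jun A M k) : (fun X => ∑ i ∈ I, h i X) ∈ Jun A M k := by
  have : (fun X => ∑ i ∈ I, h i X) = ∑ i ∈ I, h i := by
    funext X; rw [Finset.sum_apply]
  rw [this]
  exact Submodule.sum_mem _ hh

/-- A function of coordinate `j` and of few other coordinates. -/
lemma Jun.family {A : Type*} [Fintype A] {M k j : ℕ} (hj : j < M) {h : A → (ℕ → A) → ℝ}
    (hh : ∀ a, h a ∈ Jun A M k) : (fun X => h (X j) X) ∈ Jun A M (1 + k) := by
  classical
  have e : (fun X : ℕ → A => h (X j) X) = fun X => ∑ a : A, (if X j = a then (1 : ℝ) else 0) * h a X := by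
    funext X
    rw [Finset.sum_eq_single (X j)]
    · simp
    · intro b _ hb; rw [if_neg (Ne.symm hb), zero_mul]
    · intro h'; exact absurd (mem_univ _) h'
  rw [e]
  exact Jun.sum _ fun a _ => Jun.mul (Jun.single hj fun b => if b = a then (1 : ℝ) else 0) (hh a)

/-- The source `Y` has `k`-wise independent uniform coordinates below `M`. -/
def KWI {Ω : Type*} [Fintype Ω] (M k : ℕ) (Y : Ω → ℕ → A) : Prop :=
  ∀ S : Finset ℕ, S ⊆ range M → #S ≤ k → ∀ h : (ℕ → A) → ℝ, DepOn (↑S) h → 𝔼 ω, h (Y ω) = E M h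

lemma KWI.jun {Ω : Type*} [Fintype Ω] {M k : ℕ} {Y : Ω → ℕ → A} (hY : KWI M k Y)
    {h : (ℕ → A) → ℝ} (hh : h ∈ Jun A M k) : 𝔼 ω, h (Y ω) = E M h := by
  unfold Jun at hh
  induction hh using Submodule.span_induction with
  | mem x hx =>
    obtain ⟨S, h1, h2, h3⟩ := hx
    exact hY S h1 h2 x h3
  | zero =>
    have h0 : E M (fun _ : ℕ → A => (0 : ℝ)) = 0 := E_const M 0
    show 𝔼 ω, (0 : ℝ) = E M (fun _ : ℕ → A => (0 : ℝ))
    rw [h0]
    simp
  | add x y _ _ hx hy =>
    show 𝔼 ω, (x (Y ω) + y (Y ω)) = E M (fun X => x X + y X)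
    rw [Finset.expect_add_distrib, E_add, hx, hy]
  | smul c x _ hx =>
    show 𝔼 ω, (c * x (Y ω)) = E M (fun X => c * x X)
    rw [← Finset.mul_expect, E_const_mul, hx]

end Pool.Agent.H73.FW
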