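import Pool.Agent.H73.FW.Win
import Pool.Agent.H9.PRG.Main
import Pool.Agent.H9.PRG.GrzGen

/-!
The generator, its analysis and its complexity.
-/

open Finset
open scoped BigOperators

namespace Pool.Agent.H73.FW

open Pool.Agent.H9.PRG

/-- The source of block values: the values of a random polynomial with `k` coefficients. -/
def src (p k : ℕ) : (Fin k → ZMod p) → ℕ → ZMod p := fun κ b => pev κ (b : ZMod p)

lemma kwi_src {p k M : ℕ} [Fact p.Prime] (hM : M ≤ p) : KWI M k (src p k) := by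
  classical
  intro S hS hk h hd
  rw [E_eq_expect (hd.mono fun l hl => by simpa using hS hl) 0]
  set S' : Finset (Fin M) := univ.filter (fun i => i.val ∈ S) with hS'
  have hcard : #S' ≤ #S := by
    apply Finset.card_le_card_of_injOn (fun i => i.val)
    · intro i hi
      have := (Finset.mem_filter.mp (Finset.mem_coe.mp hi)).2
      exact this
    · intro i _ j _ hij
      exact Fin.ext hij
  have h1 := kwise (k := k) hM S' (hcard.trans hk) (fun u => ((h (Uf 0 M u) : ℝ) : ℂ)) (by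
    intro x y hxy
    congr 1
    apply hd
    intro l hl
    have hlM : l < M := by simpa using hS hl
    unfold Uf
    rw [dif_pos hlM, dif_pos hlM]
    apply hxy
    simp only [hS', Finset.mem_filter, Finset.mem_univ, true_and]
    exact hl)
  have h2 : ∀ κ : Fin k → ZMod p, h (Uf 0 M (fun i => pev κ ((i.val : ℕ) : ZMod p))) =
      h (src p k κ) := by
    intro κ
    apply hd
    intro l hl
    have hlM : l < M := by simpa using hS hl
    unfold Uf src
    rw [dif_pos hlM]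
  simp only [h2] at h1
  rw [← Complex.ofReal_expect, ← Complex.ofReal_expect] at h1
  exact Complex.ofReal_injective h1

lemma uniform_blocks_q {n : ℕ} (q : (ℕ → Bool) → ℝ)
    (hq : ∀ x x' : ℕ → Bool, (∀ i < n, x i = x' i) → q x = q x')
    (hq0 : ∀ x, 0 ≤ q x) (hq1 : ∀ x, q x ≤ 1) {p : ℕ} [Fact p.Prime] {B M : ℕ} (hB : 0 < B)
    (hn : n < 2 * B * M) :
    |𝔼 u : Fin M → ZMod p, 𝔼 v : Fin M → ZMod p,
        q (bitsOf (bitZ p) B (comb 0 (Uf 0 M u) (Uf 0 M v))) -
      𝔼 x : Fin n → Bool, q (seqOf x)| ≤ 2 * M * (2 * 2 ^ B / p) := by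
  classical
  have hM : 0 < M := by
    rcases Nat.eq_zero_or_pos M with h | h
    · subst h; omega
    · exact h
  have hdiv : ∀ i : Fin n, (i.val / B) / 2 < M := by
    intro i
    rw [Nat.div_div_eq_div_mul]
    apply Nat.div_lt_of_lt_mul
    calc i.val < n := i.isLt
      _ < 2 * B * M := hn
      _ = B * 2 * M := by ring
  have hmod : ∀ i : Fin n, i.val % B < B := fun i => Nat.mod_lt _ hB
  let ι : Fin n → (Fin M × Fin B) ⊕ (Fin M × Fin B) := fun i =>
    if (i.val / B) % 2 = 0 then Sum.inl (⟨(i.val / B) / 2, hdiv i⟩, ⟨i.val % B, hmod i⟩)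
    else Sum.inr (⟨(i.val / B) / 2, hdiv i⟩, ⟨i.val % B, hmod i⟩)
  have hι : Function.Injective ι := by
    intro i j hij
    simp only [ι] at hij
    have key : (i.val / B) / 2 = (j.val / B) / 2 → i.val % B = j.val % B →
        (i.val / B) % 2 = (j.val / B) % 2 → i = j := by
      intro h1 h2 h3
      apply Fin.ext
      have h4 : i.val / B = j.val / B := by
        generalize i.val / B = a at h1 h3 ⊢
        generalize j.val / B = b at h1 h3 ⊢
        omega
      rw [← Nat.div_add_mod i.val B, ← Nat.div_add_mod j.val B, h4, h2]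
    split_ifs at hij with h1 h2 h2
    · simp only [Sum.inl.injEq, Prod.mk.injEq, Fin.mk.injEq] at hij
      exact key hij.1 hij.2 (by rw [h1, h2])
    · simp only [Sum.inr.injEq, Prod.mk.injEq, Fin.mk.injEq] at hij
      refine key hij.1 hij.2 ?_
      generalize i.val / B = a at h1 h2 ⊢
      generalize j.val / B = b at h1 h2 ⊢
      omega
  let Gb : ((Fin M × Fin B) ⊕ (Fin M × Fin B) → Bool) → ℂ := fun z =>
    ((q (seqOf fun i => z (ι i)) : ℝ) : ℂ)
  let G : ((Fin M → Fin B → Bool) × (Fin M → Fin B → Bool)) → ℂ := fun y => Gb (pairEquiv M B y)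
  have hGn : ∀ y, ‖G y‖ ≤ 1 := by
    intro y
    simp only [G, Gb, Complex.norm_real, Real.norm_eq_abs]
    rw [abs_of_nonneg (hq0 _)]
    exact hq1 _
  have hnear : NearU (Prod.map (fun (u : Fin M → ZMod p) i => lowBits p B (u i))
      (fun (u : Fin M → ZMod p) i => lowBits p B (u i))) (M * (2 * 2 ^ B / p) + M * (2 * 2 ^ B / p)) :=
    NearU.prodMap ((NearU_lowBits B).pi M) ((NearU_lowBits B).pi M)
  have h := hnear G hGn
  have hR : 𝔼 y, G y = ((𝔼 x : Fin n → Bool, q (seqOf x) : ℝ) : ℂ) := by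
    rw [Complex.ofReal_expect]
    rw [← expect_restrict_bool ι hι (fun x => ((q (seqOf x) : ℝ) : ℂ))]
    exact Fintype.expect_equiv (pairEquiv M B) _ _ (fun y => rfl)
  have hL : 𝔼 w : (Fin M → ZMod p) × (Fin M → ZMod p), G (Prod.map
      (fun (u : Fin M → ZMod p) i => lowBits p B (u i))
      (fun (u : Fin M → ZMod p) i => lowBits p B (u i)) w) =
      ((𝔼 u : Fin M → ZMod p, 𝔼 v : Fin M → ZMod p,
        q (bitsOf (bitZ p) B (comb 0 (Uf 0 M u) (Uf 0 M v))) : ℝ) : ℂ) := by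
    rw [← Finset.univ_product_univ, Finset.expect_product, Complex.ofReal_expect]
    refine Finset.expect_congr rfl fun u _ => ?_
    rw [Complex.ofReal_expect]
    refine Finset.expect_congr rfl fun v _ => ?_
    simp only [G, Gb]
    congr 1
    apply hq
    intro i hi
    simp only [seqOf, hi, dif_pos, ι]
    unfold bitsOf comb
    by_cases hpar : (i / B) % 2 = 0
    · simp only [hpar, if_true]
      have : Uf 0 M u (i / B / 2) = u ⟨i / B / 2, hdiv ⟨i, hi⟩⟩ := by
        unfold Uf; rw [dif_pos (hdiv ⟨i, hi⟩)]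
      rw [this]
      rfl
    · simp only [hpar, if_false]
      have : Uf 0 M v (i / B / 2) = v ⟨i / B / 2, hdiv ⟨i, hi⟩⟩ := by
        unfold Uf; rw [dif_pos (hdiv ⟨i, hi⟩)]
      rw [this]
      rfl
  rw [hL, hR, ← Complex.ofReal_sub, Complex.norm_real, Real.norm_eq_abs] at h
  refine h.trans (le_of_eq ?_)
  ring

/-- The `i`-th output bit for the seed `s`. -/
def genF (p k B s i : ℕ) : Bool :=
  (npev p k (if i / B % 2 = 0 then s % (p ^ k * p ^ k) % p ^ k else s % (p ^ k * p ^ k) / p ^ k)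
    (i / B / 2)).testBit (i % B)

lemma src_val {p k : ℕ} [Fact p.Prime] (w b : ℕ) :
    (src p k (fun a : Fin k => digZ p w a) b).val = npev p k w b := by
  have hp : 0 < p := (Fact.out : p.Prime).pos
  unfold src
  rw [← npev_cast p k w b, ZMod.val_natCast]
  exact Nat.mod_eq_of_lt (npev_lt hp _ _ _)

lemma genF_eq {p k : ℕ} [Fact p.Prime] (B s : ℕ) : genF p k B s =
    bitsOf (bitZ p) B (comb 0
      (src p k (fun a : Fin k => digZ p (s % (p ^ k * p ^ k) % p ^ k) a))
      (src p k (fun a : Fin k => digZ p (s % (p ^ k * p ^ k) / p ^ k) a))) := by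
  funext i
  unfold genF bitsOf comb bitZ
  split_ifs with h
  · rw [src_val]
  · rw [src_val]

lemma seed_avg {p k : ℕ} [Fact p.Prime] (B : ℕ) (q : (ℕ → Bool) → ℝ)
    (hq0 : ∀ x, 0 ≤ q x) (hq1 : ∀ x, q x ≤ 1) (r : ℕ) :
    |(∑ s ∈ range (2 ^ r), q (genF p k B s)) / 2 ^ r -
      𝔼 ω0, 𝔼 ω1, q (bitsOf (bitZ p) B (comb 0 (src p k ω0) (src p k ω1)))| ≤
      2 * (p ^ k * p ^ k : ℕ) / 2 ^ r := by
  have hp : 0 < p := (Fact.out : p.Prime).pos
  set Λ := p ^ k with hΛ
  have hΛ0 : 0 < Λ := by positivity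
  let F : ℕ → ℕ → ℂ := fun w0 w1 => ((q (bitsOf (bitZ p) B (comb 0
      (src p k (fun a : Fin k => digZ p w0 a))
      (src p k (fun a : Fin k => digZ p w1 a)))) : ℝ) : ℂ)
  have hF : ∀ a b, ‖F a b‖ ≤ 1 := by
    intro a b
    simp only [F, Complex.norm_real, Real.norm_eq_abs]
    rw [abs_of_nonneg (hq0 _)]
    exact hq1 _
  have h3 := EN_mod (2 ^ r) (Λ * Λ) (by positivity) (by positivity)
    (fun d => F (d % Λ) (d / Λ)) (fun d => hF _ _)
  have h4 : EN (2 ^ r) (fun x => (fun d => F (d % Λ) (d / Λ)) (x % (Λ * Λ))) =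
      (((∑ s ∈ range (2 ^ r), q (genF p k B s)) / 2 ^ r : ℝ) : ℂ) := by
    unfold EN
    push_cast
    congr 1
    refine Finset.sum_congr rfl fun s _ => ?_
    rw [genF_eq]
  have h5 : EN (Λ * Λ) (fun d => F (d % Λ) (d / Λ)) =
      ((𝔼 ω0, 𝔼 ω1, q (bitsOf (bitZ p) B (comb 0 (src p k ω0) (src p k ω1))) : ℝ) : ℂ) := by
    rw [EN_mul Λ Λ F]
    rw [Complex.ofReal_expect]
    rw [hΛ]
    simp only [F]
    have h6 : ∀ u : ℕ, EN (p ^ k) (fun v => ((q (bitsOf (bitZ p) B (comb 0
      (src p k (fun a : Fin k => digZ p u a))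
      (src p k (fun a : Fin k => digZ p v a)))) : ℝ) : ℂ)) =
      𝔼 ω1, ((q (bitsOf (bitZ p) B (comb 0
      (src p k (fun a : Fin k => digZ p u a))
      (src p k ω1))) : ℝ) : ℂ) := fun u =>
      EN_pow (q := p) k (fun ω1 => ((q (bitsOf (bitZ p) B (comb 0
      (src p k (fun a : Fin k => digZ p u a))
      (src p k ω1))) : ℝ) : ℂ))
    rw [EN_congr (fun u _ => h6 u)]
    refine (EN_pow (q := p) k (fun ω0 => 𝔼 ω1, ((q (bitsOf (bitZ p) B (comb 0
      (src p k ω0)
      (src p k ω1))) : ℝ) : ℂ))).trans ?_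
    refine Finset.expect_congr rfl fun ω0 _ => ?_
    rw [Complex.ofReal_expect]
  rw [h4, h5, ← Complex.ofReal_sub, Complex.norm_real, Real.norm_eq_abs] at h3
  push_cast at h3 ⊢
  exact h3

section

variable {n L : ℕ} {V : Type}

lemma WinMem.mem_congr (D : WinMem n L V) (x x' : ℕ → Bool) (h : ∀ i < n, x i = x' i) :
    ∀ t ≤ n, D.mem x t = D.mem x' t := by
  intro t
  induction t with
  | zero => intro _; rfl
  | succ t ih =>
    intro ht
    rw [WinMem.mem, WinMem.mem, ih (by omega),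
      D.upd_local t (by omega) x x' (fun j _ hj => h j (by omega))]

lemma WinMem.changes_congr (D : WinMem n L V) (x x' : ℕ → Bool) (h : ∀ i < n, x i = x' i) :
    ∀ t ≤ n, D.changes x t = D.changes x' t := by
  classical
  intro t
  induction t with
  | zero => intro _; rfl
  | succ t ih =>
    intro ht
    rw [WinMem.changes, WinMem.changes, ih (by omega), D.mem_congr x x' h t (by omega)]
    have := D.upd_local t (by omega) x x' (fun j _ hj => h j (by omega))
    simp only [this]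

theorem estimate (D : WinMem n L V) {B : ℕ} (hL : L ≤ B) (hB : 0 < B) (hn1 : 1 ≤ n)
    (M : ℕ) (hn : n < 2 * B * M) {p k : ℕ} [Fact p.Prime] (hM : M ≤ p)
    (K : ℕ) (q : (ℕ → Bool) → V → ℝ)
    (hq : ∀ x x' : ℕ → Bool, (∀ j, n ≤ j + L → j < n → x j = x' j) → q x = q x')
    (hq0 : ∀ x v, 0 ≤ q x v) (hq1 : ∀ x v, q x v ≤ 1)
    (C : ℝ) (hC : 0 ≤ C) (t : ℕ) (heb : eb C t K ≤ 1)
    (hk : 1 + (K + 1) * (2 * t + 1) ≤ k) (r : ℕ) :
    (∑ s ∈ range (2 ^ r), q (genF p k B s) (D.mem (genF p k B s) n)) / 2 ^ r ≤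
      𝔼 x : Fin n → Bool, q (seqOf x) (D.mem (seqOf x) n) +
      3 * 𝔼 x : Fin n → Bool, D.phi K (seqOf x) + 3 * errK C t K +
      4 * (2 * M * (2 * 2 ^ B / p)) + 2 * (p ^ k * p ^ k : ℕ) / 2 ^ r := by
  have h1 := seed_avg (p := p) (k := k) B (fun x => q x (D.mem x n)) (fun x => hq0 _ _)
    (fun x => hq1 _ _) r
  have hY : KWI M (1 + (K + 1) * (2 * t + 1)) (src p k) := (kwi_src hM).mono_k hk
  have h2 := two_sides_q D hL hB hn1 (bitZ p) 0 M hn K q hq hq0 hq1 C hC t heb (src p k) hY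
  have h3 := uniform_blocks_q (p := p) (fun x => q x (D.mem x n)) (n := n) (by
    intro x x' h
    rw [D.mem_congr x x' h n le_rfl, hq x x' (fun j _ hj => h j hj)]) (fun x => hq0 _ _)
    (fun x => hq1 _ _) hB hn
  have h4 := uniform_blocks_q (p := p) (D.phi K) (n := n) (by
    intro x x' h
    unfold WinMem.phi
    rw [D.changes_congr x x' h n le_rfl]) (D.phi_nonneg K) (D.phi_le_one K) hB hn
  have h5 := (abs_le.mp h1).2
  have h6 := (abs_le.mp h3).2
  have h7 := (abs_le.mp h4).2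
  linarith

end

/-- The generator: the `i`-th output bit for length `n` and seed `s`. -/
def genW (c k a n s i : ℕ) : Bool := genF (pn c a n) k (Bn c n) s i

open Grz2 in
/-- The generator belongs to `E²`. -/
theorem genW_explicit (c k a : ℕ) : IsExplicit (genW c k a) := by
  obtain ⟨C0, hC0⟩ := Lam_bound c k a
  unfold IsExplicit
  have hn : Grz2 (fun v : Fin 3 → ℕ => v 0) := Grz2.proj 0
  have hs : Grz2 (fun v : Fin 3 → ℕ => v 1) := Grz2.proj 1
  have hi : Grz2 (fun v : Fin 3 → ℕ => v 2) := Grz2.proj 2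
  have hp : Grz2 (fun v : Fin 3 → ℕ => pn c a (v 0)) := pn' c k a hC0 hn
  have hB : Grz2 (fun v : Fin 3 → ℕ => Bn c (v 0)) := Bn' c k a hC0 hn
  have hL : Grz2 (fun v : Fin 3 → ℕ => pn c a (v 0) ^ k) := powFixed hp k
  unfold genW genF
  have hu : Grz2 (fun v : Fin 3 → ℕ => if v 2 / Bn c (v 0) % 2 = 0 then
      v 1 % (pn c a (v 0) ^ k * pn c a (v 0) ^ k) % pn c a (v 0) ^ k else
      v 1 % (pn c a (v 0) ^ k * pn c a (v 0) ^ k) / pn c a (v 0) ^ k) :=
    ite_eq (mod (div hi hB) (const 2)) (const 0) (mod (mod hs (mul' hL hL)) hL)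
      (div (mod hs (mul' hL hL)) hL)
  refine ite_testBit ?_ (mod hi hB) (const 1) (const 0)
  exact npev' k hp hu (div (div hi hB) (const 2))

end Pool.Agent.H73.FW
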