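import Pool.Agent.H73.FW.GenF

/-!
Choice of the parameters and the main theorem.
-/

open Finset
open scoped BigOperators

namespace Pool.Agent.H73.FW

open Pool.Agent.H9.PRG

/-- Enlarging the window. -/
def WinMem.widen {n L L' : ℕ} {V : Type} (D : WinMem n L V) (h : L ≤ L') : WinMem n L' V where
  init := D.init
  upd := D.upd
  acc := D.acc
  upd_local t ht x x' hx := D.upd_local t ht x x' (fun j h1 h2 => hx j (by omega) h2)
  acc_local x x' hx := D.acc_local x x' (fun j h1 h2 => hx j (by omega) h2)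

lemma WinMem.widen_mem {n L L' : ℕ} {V : Type} (D : WinMem n L V) (h : L ≤ L') (x : ℕ → Bool)
    (t : ℕ) : (D.widen h).mem x t = D.mem x t := by
  induction t with
  | zero => rfl
  | succ t ih => rw [WinMem.mem, WinMem.mem, ih]; rfl

lemma WinMem.widen_changes {n L L' : ℕ} {V : Type} (D : WinMem n L V) (h : L ≤ L')
    (x : ℕ → Bool) (t : ℕ) : (D.widen h).changes x t = D.changes x t := by
  classical
  induction t with
  | zero => rfl
  | succ t ih => rw [WinMem.changes, WinMem.changes, ih, D.widen_mem]; rfl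

lemma probMore_eq {n L : ℕ} {V : Type} (D : WinMem n L V) (K : ℕ) :
    𝔼 x : Fin n → Bool, D.phi (K + 1) (seqOf x) = D.probMore K := by
  classical
  unfold WinMem.phi WinMem.probMore
  rw [Fintype.expect_eq_sum_div_card, Finset.sum_boole]
  simp only [Fintype.card_fun, Fintype.card_bool, Fintype.card_fin, Nat.cast_pow, Nat.cast_ofNat]
  congr! 3

lemma seed_bound (c k a n : ℕ) (hn : 2 ≤ n) :
    2 * ((pn c a n ^ k * pn c a n ^ k : ℕ) : ℝ) /
      2 ^ ((4 * (k * (c + 3 + a)) + a) * Nat.log 2 n) ≤ 2 / 2 ^ a := by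
  have hlog : 1 ≤ Nat.log 2 n := Nat.log_pos (by norm_num) hn
  have hx1 : 1 ≤ lg n := lg_pos n
  have hE : En c a n + 1 ≤ (c + 3 + a) * lg n := by
    unfold En; nlinarith
  have hL : pn c a n ^ k ≤ 2 ^ (k * (c + 3 + a) * lg n) := by
    calc pn c a n ^ k ≤ (2 ^ (En c a n + 1)) ^ k := Nat.pow_le_pow_left (pn_le c a n) k
      _ = 2 ^ (k * (En c a n + 1)) := by rw [← pow_mul, mul_comm]
      _ ≤ _ := by
          apply Nat.pow_le_pow_right (by norm_num)
          rw [mul_assoc]
          exact Nat.mul_le_mul_left _ hE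
  have hL2 : pn c a n ^ k * pn c a n ^ k * 2 ^ a ≤
      2 ^ ((4 * (k * (c + 3 + a)) + a) * Nat.log 2 n) := by
    calc _ ≤ 2 ^ (k * (c + 3 + a) * lg n) * 2 ^ (k * (c + 3 + a) * lg n) * 2 ^ a :=
          Nat.mul_le_mul_right _ (Nat.mul_le_mul hL hL)
      _ = 2 ^ (k * (c + 3 + a) * lg n + k * (c + 3 + a) * lg n + a) := by
          rw [← pow_add, ← pow_add]
      _ ≤ _ := by
          apply Nat.pow_le_pow_right (by norm_num)
          unfold lg
          generalize k * (c + 3 + a) = m
          generalize Nat.log 2 n = l at hlog ⊢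
          have e1 : m ≤ m * l := Nat.le_mul_of_pos_right _ (by omega)
          have e2 : a ≤ a * l := Nat.le_mul_of_pos_right _ (by omega)
          have e3 : (4 * m + a) * l = 4 * (m * l) + a * l := by ring
          have e4 : m * (l + 1) = m * l + m := by ring
          rw [e3, e4]
          omega
  rw [div_le_div_iff₀ (by positivity) (by positivity)]
  have hL3 : (((pn c a n ^ k * pn c a n ^ k * 2 ^ a : ℕ)) : ℝ) ≤
      ((2 ^ ((4 * (k * (c + 3 + a)) + a) * Nat.log 2 n) : ℕ) : ℝ) := by exact_mod_cast hL2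
  push_cast at hL3 ⊢
  linarith

/-- The main theorem, for windows of length `c * (⌊log₂ n⌋ + 1)`. -/
theorem main (c K : ℕ) (hc : 1 ≤ c) (ε : ℝ) (hε : 0 < ε) :
    ∃ k a C : ℕ, ∀ n ≥ 2, ∀ (V : Type) (D : WinMem n (Bn c n) V) (P : ROBP n), D.Computes P →
      |probUnif P - probGen P (genW c k a n) (C * Nat.log 2 n)| ≤ 3 * D.probMore K + ε := by
  classical
  obtain ⟨C1, hC1, t, heb, herr⟩ := exists_params (K + 1) (ε / 6) (by positivity)
  obtain ⟨a, ha⟩ := exists_pow_small 18 (ε / 2) (by positivity)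
  set k := 1 + (K + 1 + 1) * (2 * t + 1) with hk
  refine ⟨k, a, 4 * (k * (c + 3 + a)) + a, fun n hn V D P hP => ?_⟩
  set r := (4 * (k * (c + 3 + a)) + a) * Nat.log 2 n with hr
  have hMp : Mn c n ≤ pn c a n := by
    refine (Mn_le c n).trans (le_trans ?_ (pn_ge c a n))
    apply Nat.pow_le_pow_right (by norm_num)
    unfold En
    have : lg n ≤ (c + 2) * lg n := Nat.le_mul_of_pos_left _ (by omega)
    omega
  have hacc : ∀ x x' : ℕ → Bool, (∀ j, n ≤ j + Bn c n → j < n → x j = x' j) →
      (fun v : V => if v ∈ D.acc x then (1 : ℝ) else 0) =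
        fun v => if v ∈ D.acc x' then (1 : ℝ) else 0 := by
    intro x x' h
    rw [D.acc_local x x' h]
  have hacc' : ∀ x x' : ℕ → Bool, (∀ j, n ≤ j + Bn c n → j < n → x j = x' j) →
      (fun v : V => 1 - if v ∈ D.acc x then (1 : ℝ) else 0) =
        fun v => 1 - if v ∈ D.acc x' then (1 : ℝ) else 0 := by
    intro x x' h
    rw [D.acc_local x x' h]
  have h1 := estimate D le_rfl (Bn_pos c n hc) (by omega) (Mn c n) (Mn_spec c n hc)
    (p := pn c a n) (k := k) hMp (K + 1) (fun x v => if v ∈ D.acc x then 1 else 0) hacc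
    (fun x v => by split_ifs <;> norm_num) (fun x v => by split_ifs <;> norm_num) C1 hC1 t heb
    hk.ge r
  have h2 := estimate D le_rfl (Bn_pos c n hc) (by omega) (Mn c n) (Mn_spec c n hc)
    (p := pn c a n) (k := k) hMp (K + 1) (fun x v => 1 - if v ∈ D.acc x then 1 else 0) hacc'
    (fun x v => by split_ifs <;> norm_num) (fun x v => by split_ifs <;> norm_num) C1 hC1 t heb
    hk.ge r
  have hU : probUnif P = 𝔼 x : Fin n → Bool,
      (if D.mem (seqOf x) n ∈ D.acc (seqOf x) then (1 : ℝ) else 0) := by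
    unfold probUnif
    rw [Fintype.expect_eq_sum_div_card, Finset.sum_boole]
    simp only [Fintype.card_fun, Fintype.card_bool, Fintype.card_fin, Nat.cast_pow, Nat.cast_ofNat]
    congr 3
    ext x
    simp only [Finset.mem_filter, Finset.mem_univ, true_and]
    exact hP (seqOf x)
  have hG : probGen P (genW c k a n) r = (∑ s ∈ range (2 ^ r),
      (if D.mem (genF (pn c a n) k (Bn c n) s) n ∈ D.acc (genF (pn c a n) k (Bn c n) s) then (1 : ℝ)
        else 0)) / 2 ^ r := by
    unfold probGen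
    rw [Finset.sum_boole]
    congr 3
    ext s
    simp only [Finset.mem_filter]
    rw [hP]
    rfl
  have h2' : (∑ s ∈ range (2 ^ r), (1 - (if D.mem (genF (pn c a n) k (Bn c n) s) n ∈
      D.acc (genF (pn c a n) k (Bn c n) s) then (1 : ℝ) else 0))) / 2 ^ r =
      1 - probGen P (genW c k a n) r := by
    rw [hG, Finset.sum_sub_distrib]
    simp only [Finset.sum_const, Finset.card_range, nsmul_eq_mul, mul_one]
    rw [sub_div]
    push_cast
    rw [div_self (by positivity)]
  have h2'' : 𝔼 x : Fin n → Bool, (1 - (if D.mem (seqOf x) n ∈ D.acc (seqOf x) then (1 : ℝ) else 0)) =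
      1 - probUnif P := by
    rw [hU, Finset.expect_sub_distrib, Fintype.expect_const]
  rw [← hG, ← hU] at h1
  rw [h2', h2''] at h2
  rw [probMore_eq] at h1 h2
  have h3 := bits_bound c a n
  have h4 := seed_bound c k a n hn
  rw [← hr] at h4
  have h5 : 18 / (2 : ℝ) ^ a ≤ ε / 2 := ha a le_rfl
  have h6 : errK C1 t (K + 1) ≤ ε / 6 := herr
  have h7 : 4 * (4 / (2 : ℝ) ^ a) + 2 / 2 ^ a = 18 / 2 ^ a := by ring
  rw [abs_le]
  constructor <;> linarith

end Pool.Agent.H73.FW
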