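import Pool.Agent.H73.FW.Stage

/-!
The recursion over the number of remaining writes.
-/

open Finset
open scoped BigOperators

namespace Pool.Agent.H73.FW

lemma T_sub_P0_le (t n : ℕ) : T t n - P0 n ≤ (n.choose (2 * t + 1) : ℝ) := by
  unfold T P0
  split_ifs with h
  · simp
  · obtain ⟨m, rfl⟩ := Nat.exists_eq_succ_of_ne_zero h
    rw [Nat.succ_sub_one, Nat.succ_eq_add_one, Nat.choose_succ_succ']
    push_cast
    have : (0 : ℝ) ≤ (m.choose (2 * t + 1) : ℝ) := by positivity
    linarith

/-- Cut-off of a sum of numbers in `[0, 1]`. -/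
lemma cutoff (p : ℕ → ℝ) (hp1 : ∀ l, p l ≤ 1) (C : ℝ) (hC : 0 ≤ C) (s : ℕ) :
    ∀ D : ℕ, ∃ d ≤ D, ∑ l ∈ Ico s (s + d), p l ≤ C ∧ (d = D ∨ C - 1 ≤ ∑ l ∈ Ico s (s + d), p l) := by
  intro D
  induction D with
  | zero => exact ⟨0, le_rfl, by simpa using hC, Or.inl rfl⟩
  | succ D ih =>
    obtain ⟨d, h1, h2, h3⟩ := ih
    rcases h3 with h3 | h3
    · subst h3
      have e : ∑ l ∈ Ico s (s + (d + 1)), p l = ∑ l ∈ Ico s (s + d), p l + p (s + d) := by
        rw [← Nat.add_assoc, Finset.sum_Ico_succ_top (by omega)]
      by_cases h : ∑ l ∈ Ico s (s + (d + 1)), p l ≤ C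
      · exact ⟨d + 1, le_rfl, h, Or.inl rfl⟩
      · refine ⟨d, by omega, h2, Or.inr ?_⟩
        have := hp1 (s + d)
        rw [e] at h
        push Not at h
        linarith
    · exact ⟨d, by omega, h2, Or.inr h3⟩

/-- Cut-off from the right. -/
lemma cutoff_right (p : ℕ → ℝ) (hp1 : ∀ l, p l ≤ 1) (C : ℝ) (hC : 0 ≤ C)
    (M : ℕ) : ∃ J ≤ M, ∑ l ∈ Ico J M, p l ≤ C ∧ (J = 0 ∨ C - 1 ≤ ∑ l ∈ Ico J M, p l) := by
  have key : ∀ D ≤ M, ∃ J ≤ M, M - D ≤ J ∧ ∑ l ∈ Ico J M, p l ≤ C ∧
      (J = M - D ∨ C - 1 ≤ ∑ l ∈ Ico J M, p l) := by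
    intro D
    induction D with
    | zero => intro _; exact ⟨M, le_rfl, by omega, by simpa using hC, Or.inl (by omega)⟩
    | succ D ih =>
      intro hD
      obtain ⟨J, h1, h2, h3, h4⟩ := ih (by omega)
      rcases h4 with h4 | h4
      · obtain ⟨J', rfl⟩ : ∃ J', J = J' + 1 := ⟨J - 1, by omega⟩
        have e : ∑ l ∈ Ico J' M, p l = p J' + ∑ l ∈ Ico (J' + 1) M, p l :=
          Finset.sum_eq_sum_Ico_succ_bot (by omega) _
        by_cases h : ∑ l ∈ Ico J' M, p l ≤ C
        · exact ⟨J', by omega, by omega, h, Or.inl (by omega)⟩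
        · refine ⟨J' + 1, h1, by omega, h3, Or.inr ?_⟩
          have := hp1 J'
          rw [e] at h
          push Not at h
          linarith
      · exact ⟨J, h1, by omega, h3, Or.inr h4⟩
  obtain ⟨J, h1, h2, h3, h4⟩ := key M le_rfl
  exact ⟨J, h1, h3, by simpa using h4⟩

lemma Jun.update {A : Type*} {M k : ℕ} {g : (ℕ → A) → ℝ} (hg : g ∈ Jun A M k) (j : ℕ) (a : A) :
    (fun X => g (Function.update X j a)) ∈ Jun A M k := by
  unfold Jun at hg
  induction hg using Submodule.span_induction with
  | mem x hx =>
    obtain ⟨S, h1, h2, h3⟩ := hx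
    refine Jun.of S h1 h2 fun X Y H => h3 _ _ fun l hl => ?_
    by_cases h : l = j
    · subst h; simp
    · rw [Function.update_of_ne h, Function.update_of_ne h]; exact H l hl
  | zero => exact Jun.const M k 0
  | add x y _ _ hx hy => exact Jun.add hx hy
  | smul c x _ hx => exact Jun.cmul c hx

section

variable {A : Type*} {V : Type*}

/-- Value of a run from state `v` before block `j` with `d` blocks to go and `i` writes left: it
is `0` if there is a reset, `1` if the writes are used up, and the acceptance value otherwise. -/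
noncomputable def val (F : ℕ → A → V → V) (fl : ℕ → A → Prop) (e : A → V → ℝ) (ms : ℕ) :
    ℕ → ℕ → ℕ → V → (ℕ → A) → ℝ
  | 0, i, _, v, X => if i = 0 then 1 else e (X ms) v
  | d + 1, i, j, v, X => open Classical in
    if fl j (X j) then 0 else
      val F fl e ms d (if F j (X j) v = v then i else i - 1) (j + 1) (F j (X j) v) X

/-- A block is a hit for the state `v` if it has a reset or changes `v`. -/
def hitv (F : ℕ → A → V → V) (fl : ℕ → A → Prop) (v : V) (j : ℕ) (a : A) : Prop :=
  fl j a ∨ F j a v ≠ v

variable (F : ℕ → A → V → V) (fl : ℕ → A → Prop) (e : A → V → ℝ) (ms : ℕ)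

lemma val_nonneg (he0 : ∀ a v, 0 ≤ e a v) : ∀ (d i j : ℕ) (v : V) (X : ℕ → A),
    0 ≤ val F fl e ms d i j v X := by
  intro d
  induction d with
  | zero =>
    intro i j v X
    unfold val
    split_ifs
    · norm_num
    · exact he0 _ _
  | succ d ih => intro i j v X; unfold val; split_ifs <;> first | exact le_rfl | exact ih _ _ _ _

lemma val_le_one (he1 : ∀ a v, e a v ≤ 1) : ∀ (d i j : ℕ) (v : V) (X : ℕ → A),
    val F fl e ms d i j v X ≤ 1 := by
  intro d
  induction d with
  | zero => intro i j v X; unfold val; split_ifs <;> first | exact le_rfl | exact he1 _ _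
  | succ d ih =>
    intro i j v X
    unfold val
    split_ifs
    · norm_num
    · exact ih _ _ _ _
    · exact ih _ _ _ _

lemma val_le_NR (he1 : ∀ a v, e a v ≤ 1) : ∀ (d i j : ℕ) (v : V) (X : ℕ → A),
    val F fl e ms d i j v X ≤ P0 (cnt fl j (j + d) X) := by
  classical
  intro d
  induction d with
  | zero =>
    intro i j v X
    rw [Nat.add_zero, cnt_self]
    refine (val_le_one F fl e ms he1 0 i j v X).trans (le_of_eq ?_)
    simp [P0]
  | succ d ih =>
    intro i j v X
    have hc : cnt fl j (j + (d + 1)) X = (if fl j (X j) then 1 else 0) + cnt fl (j + 1) (j + 1 + d) X := by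
      unfold cnt
      have e : Ico j (j + (d + 1)) = insert j (Ico (j + 1) (j + 1 + d)) := by
        ext l
        simp only [Finset.mem_Ico, Finset.mem_insert]
        omega
      rw [e, Finset.filter_insert]
      split_ifs with h
      · rw [Finset.card_insert_of_notMem (by simp)]; omega
      · omega
    rw [hc]
    unfold val
    split_ifs
    · exact P0_nonneg _
    · rw [Nat.zero_add]; exact ih _ _ _ _
    · rw [Nat.zero_add]; exact ih _ _ _ _

lemma val_zero : ∀ (d j : ℕ) (v : V) (X : ℕ → A),
    val F fl e ms d 0 j v X = P0 (cnt fl j (j + d) X) := by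
  classical
  intro d
  induction d with
  | zero => intro j v X; rw [Nat.add_zero, cnt_self]; simp [P0, val]
  | succ d ih =>
    intro j v X
    have hc : cnt fl j (j + (d + 1)) X = (if fl j (X j) then 1 else 0) + cnt fl (j + 1) (j + 1 + d) X := by
      unfold cnt
      have e : Ico j (j + (d + 1)) = insert j (Ico (j + 1) (j + 1 + d)) := by
        ext l
        simp only [Finset.mem_Ico, Finset.mem_insert]
        omega
      rw [e, Finset.filter_insert]
      split_ifs with h
      · rw [Finset.card_insert_of_notMem (by simp)]; omega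
      · omega
    rw [hc]
    unfold val
    split_ifs
    · unfold P0; rw [if_neg (by omega)]
    · rw [Nat.zero_add]; exact ih _ _ _
    · rw [Nat.zero_add]; exact ih _ _ _

lemma val_dep : ∀ (d i j : ℕ) (v : V),
    DepOn (Set.Ico j (j + d) ∪ {ms}) (val F fl e ms d i j v) := by
  classical
  intro d
  induction d with
  | zero =>
    intro i j v X Y H
    unfold val
    rw [H ms (by simp)]
  | succ d ih =>
    intro i j v X Y H
    have h1 : X j = Y j := H j (by left; simp)
    unfold val
    rw [h1]
    split_ifs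
    · rfl
    · apply ih
      intro l hl
      apply H
      rcases hl with hl | hl
      · left; simp only [Set.mem_Ico] at hl ⊢; omega
      · right; exact hl
    · apply ih
      intro l hl
      apply H
      rcases hl with hl | hl
      · left; simp only [Set.mem_Ico] at hl ⊢; omega
      · right; exact hl

/-- The first-hit decomposition of the value. -/
lemma val_decomp (i s : ℕ) (v : V) (X : ℕ → A) (D : ℕ) : ∀ d ≤ D,
    val F fl e ms D (i + 1) s v X =
      ∑ j ∈ Ico s (s + d), P0 (cnt (hitv F fl v) s j X) * (ind (hitv F fl v) j (X j) *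
        (open Classical in if fl j (X j) then 0 else
          val F fl e ms (s + D - (j + 1)) i (j + 1) (F j (X j) v) X)) +
      P0 (cnt (hitv F fl v) s (s + d) X) * val F fl e ms (D - d) (i + 1) (s + d) v X := by
  classical
  intro d
  induction d with
  | zero => intro _; simp [cnt_self, P0]
  | succ d ih =>
    intro hd
    rw [ih (by omega), ← Nat.add_assoc, Finset.sum_Ico_succ_top (by omega), add_assoc]
    congr 1
    rw [cnt_succ _ (by omega)]
    obtain ⟨r, hr⟩ : ∃ r, D - d = r + 1 := ⟨D - d - 1, by omega⟩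
    have hr2 : D - (d + 1) = r := by omega
    have hr3 : s + D - (s + d + 1) = r := by omega
    rw [hr, hr2, hr3]
    set n := cnt (hitv F fl v) s (s + d) X
    rw [val]
    by_cases h1 : fl (s + d) (X (s + d))
    · have hh : hitv F fl v (s + d) (X (s + d)) := Or.inl h1
      simp only [h1, hh, if_true, mul_zero, zero_add, ind, P0]
      rw [if_neg (by omega)]; ring
    · by_cases h2 : F (s + d) (X (s + d)) v = v
      · have hh : ¬ hitv F fl v (s + d) (X (s + d)) := by
          rintro (h | h)
          · exact h1 h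
          · exact h h2
        simp only [h1, hh, if_false, h2, if_true, ind, Nat.add_zero]
        ring
      · have hh : hitv F fl v (s + d) (X (s + d)) := Or.inr h2
        simp only [h1, hh, if_false, if_true, h2, ind, one_mul, Nat.add_sub_cancel]
        have : P0 (n + 1) = 0 := by unfold P0; rw [if_neg (by omega)]
        rw [this]; ring

variable [Fintype A] [Nonempty A]

/-- error of the upper polynomial for `i` writes -/
noncomputable def eb (C : ℝ) (t i : ℕ) : ℝ :=
  Real.exp (2 * C) / 2 ^ (2 * t + 1) +
    i * (2 * (Real.exp (2 * C) / 2 ^ (2 * t + 1)) + 2 * Real.exp (-(C - 1)))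

lemma E_T_le {M : ℕ} (hit : ℕ → A → Prop) (t : ℕ) {s j : ℕ} (hs : s ≤ j) (hj : j ≤ M) (C : ℝ)
    (hc : ∑ l ∈ Ico s j, haz hit l ≤ C) :
    E M (fun X => T t (cnt hit s j X)) - E M (fun X => P0 (cnt hit s j X)) ≤
      Real.exp (2 * C) / 2 ^ (2 * t + 1) := by
  rw [← E_sub]
  exact (E_mono fun X => T_sub_P0_le t _).trans (E_choose hit t hs hj C hc)

theorem upper (he0 : ∀ a v, 0 ≤ e a v) (he1 : ∀ a v, e a v ≤ 1) (C : ℝ) (hC : 0 ≤ C) (t J0 : ℕ)
    (hJ0 : ∑ l ∈ Ico J0 (ms + 1), haz fl l ≤ C) :
    ∀ i : ℕ, eb C t i ≤ 1 → ∀ s, J0 ≤ s → s ≤ ms → ∀ v : V,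
      ∃ g ∈ Jun A (ms + 1) ((i + 1) * (2 * t + 1)), DepOn (Set.Ico s (ms + 1)) g ∧
        (∀ X, val F fl e ms (ms + 1 - s) i s v X ≤ g X) ∧
        E (ms + 1) g - E (ms + 1) (val F fl e ms (ms + 1 - s) i s v) ≤ eb C t i := by
  classical
  set δ := Real.exp (2 * C) / 2 ^ (2 * t + 1) with hδ
  have hδ0 : 0 ≤ δ := by positivity
  -- hazard of resets after `s`
  have hfl : ∀ s, J0 ≤ s → s ≤ ms + 1 → ∑ l ∈ Ico s (ms + 1), haz fl l ≤ C := by
    intro s hs hs'
    refine le_trans ?_ hJ0
    apply Finset.sum_le_sum_of_subset_of_nonneg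
    · intro l hl
      rw [Finset.mem_Ico] at hl ⊢
      omega
    · intro l _ _; exact haz_nonneg _ _
  have hTR : ∀ s, J0 ≤ s → s ≤ ms + 1 →
      E (ms + 1) (fun X : ℕ → A => T t (cnt fl s (ms + 1) X)) ≤ 1 + δ := by
    intro s hs hs'
    have h1 := E_T_le (M := ms + 1) fl t hs' le_rfl C (hfl s hs hs')
    have h2 : E (ms + 1) (fun X : ℕ → A => P0 (cnt fl s (ms + 1) X)) ≤ 1 := by
      rw [← E_const (ms + 1) (1 : ℝ) (A := A)]
      exact E_mono fun X => by unfold P0; split_ifs <;> norm_num
    linarith
  intro i
  induction i with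
  | zero =>
    intro _ s hs hs' v
    refine ⟨fun X => T t (cnt fl s (ms + 1) X), ?_, ?_, ?_, ?_⟩
    · exact Jun.mono (by omega) (T_cnt_jun fl t (by omega) le_rfl)
    · intro X Y H
      show T t _ = T t _
      rw [cnt_dep fl s (ms + 1) X Y (fun l h1 h2 => H l ⟨h1, h2⟩)]
    · intro X
      rw [val_zero, show s + (ms + 1 - s) = ms + 1 by omega]
      exact P0_le_T t _
    · have h1 := E_T_le (M := ms + 1) fl t (show s ≤ ms + 1 by omega) le_rfl C
        (hfl s hs (by omega))
      have h2 : E (ms + 1) (val F fl e ms (ms + 1 - s) 0 s v) =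
          E (ms + 1) (fun X : ℕ → A => P0 (cnt fl s (ms + 1) X)) :=
        E_congr fun X => by rw [val_zero, show s + (ms + 1 - s) = ms + 1 by omega]
      rw [h2]
      unfold eb
      push_cast
      linarith
  | succ i ih =>
    intro heb s hs hs' v
    have hη0 : 0 ≤ Real.exp (-(C - 1)) := (Real.exp_pos _).le
    have hebi : eb C t i ≤ 1 := by
      refine le_trans ?_ heb
      unfold eb
      push_cast
      have : 0 ≤ 2 * (Real.exp (2 * C) / 2 ^ (2 * t + 1)) + 2 * Real.exp (-(C - 1)) := by positivity
      nlinarith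
    have hebi0 : 0 ≤ eb C t i := by unfold eb; positivity
    have hδ1 : δ ≤ 1 := by
      refine le_trans ?_ hebi
      unfold eb
      have : 0 ≤ (i : ℝ) * (2 * (Real.exp (2 * C) / 2 ^ (2 * t + 1)) + 2 * Real.exp (-(C - 1))) := by
        positivity
      linarith
    have ih' := ih hebi
    -- the polynomials for `i`
    have hG : ∀ j v, J0 ≤ j → j ≤ ms → ∃ g ∈ Jun A (ms + 1) ((i + 1) * (2 * t + 1)),
        DepOn (Set.Ico j (ms + 1)) g ∧
        (∀ X, val F fl e ms (ms + 1 - j) i j v X ≤ g X) ∧
        E (ms + 1) g - E (ms + 1) (val F fl e ms (ms + 1 - j) i j v) ≤ eb C t i :=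
      fun j v h1 h2 => ih' j h1 h2 v
    set G : ℕ → V → (ℕ → A) → ℝ := fun j v => if h : J0 ≤ j ∧ j ≤ ms then (hG j v h.1 h.2).choose
      else fun _ => 0 with hGdef
    have hGs : ∀ j v, J0 ≤ j → j ≤ ms → G j v ∈ Jun A (ms + 1) ((i + 1) * (2 * t + 1)) ∧
        DepOn (Set.Ico j (ms + 1)) (G j v) ∧
        (∀ X, val F fl e ms (ms + 1 - j) i j v X ≤ G j v X) ∧
        E (ms + 1) (G j v) - E (ms + 1) (val F fl e ms (ms + 1 - j) i j v) ≤ eb C t i := by
      intro j v h1 h2
      simp only [hGdef, h1, h2, and_self, dif_pos]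
      exact (hG j v h1 h2).choose_spec
    -- the cut-off
    set hit := hitv F fl v with hhit
    obtain ⟨d, hd1, hd2, hd3⟩ := cutoff (haz hit) (haz_le_one hit) C hC s
      (ms + 1 - s)
    have hsd : s + d ≤ ms + 1 := by omega
    -- the families
    set ψ' : ℕ → A → (ℕ → A) → ℝ := fun j a X => if fl j a then 0 else
      val F fl e ms (ms + 1 - (j + 1)) i (j + 1) (F j a v) (Function.update X j a) with hψ'
    set ψ : ℕ → A → (ℕ → A) → ℝ := fun j a X => if fl j a then 0 else
      if j = ms then val F fl e ms (ms + 1 - (j + 1)) i (j + 1) (F j a v) (Function.update X j a)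
      else G (j + 1) (F j a v) X with hψ
    set ω' : (ℕ → A) → ℝ := val F fl e ms (ms + 1 - (s + d)) (i + 1) (s + d) v with hω'
    set ω : (ℕ → A) → ℝ := if s + d = ms + 1 then ω' else
      fun X => T t (cnt fl (s + d) (ms + 1) X) with hω
    -- `val` after an update
    have hvalup : ∀ j, j < ms → ∀ (a : A) (w : V) (X : ℕ → A),
        val F fl e ms (ms + 1 - (j + 1)) i (j + 1) w (Function.update X j a) =
        val F fl e ms (ms + 1 - (j + 1)) i (j + 1) w X := by
      intro j hj a w X
      apply val_dep
      intro l hl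
      rw [Function.update_of_ne]
      rintro rfl
      rcases hl with hl | hl
      · simp only [Set.mem_Ico] at hl; omega
      · simp only [Set.mem_singleton_iff] at hl; omega
    -- dependence
    have hψ'dep : ∀ j, s ≤ j → j < s + d → ∀ a, DepOn (Set.Ico (j + 1) (ms + 1)) (ψ' j a) := by
      intro j _ hj2 a X Y H
      simp only [hψ']
      split_ifs
      · rfl
      · apply val_dep
        intro l hl
        by_cases hlj : l = j
        · subst hlj; simp
        · rw [Function.update_of_ne hlj, Function.update_of_ne hlj]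
          apply H
          rcases hl with hl | hl
          · simp only [Set.mem_Ico] at hl ⊢; omega
          · simp only [Set.mem_singleton_iff] at hl
            simp only [Set.mem_Ico]; omega
    have hψdep : ∀ j, s ≤ j → j < s + d → ∀ a, DepOn (Set.Ico (j + 1) (ms + 1)) (ψ j a) := by
      intro j hj1 hj2 a X Y H
      by_cases hjm : j = ms
      · have := hψ'dep j hj1 hj2 a X Y H
        simp only [hψ', hψ, hjm, if_true] at this ⊢
        exact this
      · simp only [hψ, hjm, if_false]
        split_ifs
        · rfl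
        · exact (hGs (j + 1) (F j a v) (by omega) (by omega)).2.1 X Y H
    have hψle : ∀ j, s ≤ j → j < s + d → ∀ a X, ψ' j a X ≤ ψ j a X := by
      intro j hj1 hj2 a X
      by_cases hjm : j = ms
      · simp only [hψ', hψ, hjm, if_true]; exact le_rfl
      · simp only [hψ', hψ, hjm, if_false]
        split_ifs
        · exact le_rfl
        · rw [hvalup j (by omega)]
          exact (hGs (j + 1) (F j a v) (by omega) (by omega)).2.2.1 X
    have hψ'0 : ∀ j a X, 0 ≤ ψ' j a X := by
      intro j a X
      simp only [hψ']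
      split_ifs
      · exact le_rfl
      · exact val_nonneg F fl e ms he0 _ _ _ _ _
    have hψ'1 : ∀ j a X, ψ' j a X ≤ 1 := by
      intro j a X
      simp only [hψ']
      split_ifs
      · norm_num
      · exact val_le_one F fl e ms he1 _ _ _ _ _
    have hψerr : ∀ j, s ≤ j → j < s + d → ∀ a, E (ms + 1) (ψ j a) - E (ms + 1) (ψ' j a) ≤ eb C t i := by
      intro j hj1 hj2 a
      by_cases hjm : j = ms
      · have : ψ j a = ψ' j a := by funext X; simp only [hψ', hψ, hjm, if_true]
        rw [this, sub_self]; exact hebi0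
      · by_cases hfa : fl j a
        · have : ψ j a = ψ' j a := by funext X; simp only [hψ', hψ, hfa, if_true]
          rw [this, sub_self]; exact hebi0
        · have h1 : ψ j a = G (j + 1) (F j a v) := by
            funext X; simp only [hψ, hfa, if_false, hjm]
          have h2 : E (ms + 1) (ψ' j a) =
              E (ms + 1) (val F fl e ms (ms + 1 - (j + 1)) i (j + 1) (F j a v)) := by
            apply E_congr
            intro X
            simp only [hψ', hfa, if_false]
            rw [hvalup j (by omega)]
          rw [h1, h2]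
          exact (hGs (j + 1) (F j a v) (by omega) (by omega)).2.2.2
    have hψβ : ∀ j, s ≤ j → j < s + d → ∀ a, E (ms + 1) (ψ j a) ≤ 2 := by
      intro j hj1 hj2 a
      have h1 := hψerr j hj1 hj2 a
      have h2 : E (ms + 1) (ψ' j a) ≤ 1 := by
        rw [← E_const (ms + 1) (1 : ℝ) (A := A)]
        exact E_mono fun X => hψ'1 j a X
      linarith
    have hω'0 : ∀ X, 0 ≤ ω' X := fun X => val_nonneg F fl e ms he0 _ _ _ _ _
    have hω'1 : ∀ X, ω' X ≤ 1 := fun X => val_le_one F fl e ms he1 _ _ _ _ _
    have hωle : ∀ X, ω' X ≤ ω X := by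
      intro X
      by_cases h : s + d = ms + 1
      · simp only [hω, h, if_true]; exact le_rfl
      · simp only [hω, h, if_false]
        refine (val_le_NR F fl e ms he1 _ _ _ _ X).trans ?_
        rw [show s + d + (ms + 1 - (s + d)) = ms + 1 by omega]
        exact P0_le_T t _
    have hdepTR : DepOn (Set.Ici (s + d)) (fun X : ℕ → A => T t (cnt fl (s + d) (ms + 1) X)) := by
      intro X Y H
      show T t _ = T t _
      rw [cnt_dep fl (s + d) (ms + 1) X Y (fun l h1 h2 => H l h1)]
    have hdepTR' : DepOn (Set.Iio (ms + 1)) (fun X : ℕ → A => T t (cnt fl (s + d) (ms + 1) X)) := by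
      intro X Y H
      show T t _ = T t _
      rw [cnt_dep fl (s + d) (ms + 1) X Y (fun l h1 h2 => H l h2)]
    have hTP0 : 0 ≤ E (ms + 1) (fun X : ℕ → A => T t (cnt hit s (s + d) X) - P0 (cnt hit s (s + d) X)) :=
      E_nonneg fun X => by have := P0_le_T t (cnt hit s (s + d) X); linarith
    have hωβ : E (ms + 1) (fun X => (T t (cnt hit s (s + d) X) - P0 (cnt hit s (s + d) X)) * ω X) ≤
        2 * E (ms + 1) (fun X => T t (cnt hit s (s + d) X) - P0 (cnt hit s (s + d) X)) := by
      by_cases h : s + d = ms + 1
      · have h1 : E (ms + 1) (fun X => (T t (cnt hit s (s + d) X) - P0 (cnt hit s (s + d) X)) * ω X) ≤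
            E (ms + 1) (fun X => T t (cnt hit s (s + d) X) - P0 (cnt hit s (s + d) X)) := by
          apply E_mono
          intro X
          have h2 : ω X ≤ 1 := by simp only [hω, h, if_true]; exact hω'1 X
          have h3 := P0_le_T t (cnt hit s (s + d) X)
          nlinarith
        linarith
      · have h1 : E (ms + 1) (fun X => (T t (cnt hit s (s + d) X) - P0 (cnt hit s (s + d) X)) * ω X) =
            E (ms + 1) (fun X => T t (cnt hit s (s + d) X) - P0 (cnt hit s (s + d) X)) *
              E (ms + 1) ω := by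
          simp only [hω, h, if_false]
          exact E_mul hsd (cnt_fun_dep hit (fun n => T t n - P0 n) s (s + d)) hdepTR hdepTR'
        have h2 : E (ms + 1) ω ≤ 1 + δ := by
          simp only [hω, h, if_false]
          exact hTR (s + d) (by omega) hsd
        rw [h1]
        nlinarith
    have hωη : E (ms + 1) (fun X => P0 (cnt hit s (s + d) X) * (ω X - ω' X)) ≤
        2 * Real.exp (-(C - 1)) := by
      by_cases h : s + d = ms + 1
      · have h1 : E (ms + 1) (fun X => P0 (cnt hit s (s + d) X) * (ω X - ω' X)) =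
            E (ms + 1) (fun _ : ℕ → A => (0 : ℝ)) := by
          apply E_congr
          intro X
          simp only [hω, h, if_true]; ring
        rw [h1, E_const]
        positivity
      · have h0 : C - 1 ≤ ∑ l ∈ Ico s (s + d), haz hit l := by
          rcases hd3 with h' | h'
          · exact absurd (by omega) h
          · exact h'
        have h1 : E (ms + 1) (fun X => P0 (cnt hit s (s + d) X) * (ω X - ω' X)) ≤
            E (ms + 1) (fun X => P0 (cnt hit s (s + d) X) * ω X) := by
          apply E_mono
          intro X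
          apply mul_le_mul_of_nonneg_left _ (P0_nonneg _)
          have := hω'0 X
          linarith
        have h2 : E (ms + 1) (fun X => P0 (cnt hit s (s + d) X) * ω X) =
            E (ms + 1) (fun X : ℕ → A => P0 (cnt hit s (s + d) X)) * E (ms + 1) ω := by
          simp only [hω, h, if_false]
          exact E_mul hsd (cnt_fun_dep hit P0 s (s + d)) hdepTR hdepTR'
        have h3 : E (ms + 1) ω ≤ 1 + δ := by
          simp only [hω, h, if_false]
          exact hTR (s + d) (by omega) hsd
        have h4 : 0 ≤ E (ms + 1) ω := E_nonneg fun X => (hω'0 X).trans (hωle X)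
        have h5 := E_P0 (M := ms + 1) hit (show s ≤ s + d by omega) hsd
        have h6 : Real.exp (-∑ l ∈ Ico s (s + d), haz hit l) ≤ Real.exp (-(C - 1)) :=
          Real.exp_le_exp.mpr (by linarith)
        refine h1.trans ?_
        rw [h2]
        calc _ ≤ Real.exp (-(C - 1)) * E (ms + 1) ω := by
              apply mul_le_mul_of_nonneg_right (h5.trans h6) h4
          _ ≤ Real.exp (-(C - 1)) * (1 + δ) := by gcongr
          _ ≤ _ := by nlinarith
    obtain ⟨hst1, hst2⟩ := stage (M := ms + 1) hit t s d hsd ψ ψ' ω ω' 2 (eb C t i)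
      (2 * Real.exp (-(C - 1)))
      (fun j h1 h2 a => (hψdep j h1 h2 a).mono fun l hl => by
        simp only [Set.mem_Ico, Set.mem_Ioi] at hl ⊢; omega)
      (fun j h1 h2 a => (hψdep j h1 h2 a).mono fun l hl => by
        simp only [Set.mem_Ico, Set.mem_Iio] at hl ⊢; omega)
      (fun j h1 h2 a => (hψ'dep j h1 h2 a).mono fun l hl => by
        simp only [Set.mem_Ico, Set.mem_Ioi] at hl ⊢; omega)
      (fun j h1 h2 a => (hψ'dep j h1 h2 a).mono fun l hl => by
        simp only [Set.mem_Ico, Set.mem_Iio] at hl ⊢; omega)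
      (fun j _ _ a X => hψ'0 j a X) hψle hω'0 hωle hebi0 hψβ hψerr hωβ hωη
    -- the value is the lower expression
    have hval : ∀ X, ∑ j ∈ Ico s (s + d), P0 (cnt hit s j X) * (ind hit j (X j) * ψ' j (X j) X) +
        P0 (cnt hit s (s + d) X) * ω' X = val F fl e ms (ms + 1 - s) (i + 1) s v X := by
      intro X
      rw [val_decomp F fl e ms i s v X (ms + 1 - s) d hd1]
      congr 1
      · refine Finset.sum_congr rfl fun j hj => ?_
        simp only [hψ', Function.update_eq_self]
        rw [show s + (ms + 1 - s) - (j + 1) = ms + 1 - (j + 1) by omega]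
      · rw [show ms + 1 - s - d = ms + 1 - (s + d) by omega]
    refine ⟨fun X => ∑ j ∈ Ico s (s + d), T t (cnt hit s j X) * (ind hit j (X j) * ψ j (X j) X) +
        T t (cnt hit s (s + d) X) * ω X, ?_, ?_, ?_, ?_⟩
    · -- few coordinates
      have hk : (i + 1 + 1) * (2 * t + 1) = 2 * t + (1 + (i + 1) * (2 * t + 1)) := by ring
      rw [hk]
      refine Jun.add ?_ ?_
      · refine Jun.sum _ fun j hj => ?_
        rw [Finset.mem_Ico] at hj
        refine Jun.mul (T_cnt_jun hit t hj.1 (by omega)) ?_
        have hfam : ∀ a, (fun X => ind hit j a * ψ j a X) ∈ Jun A (ms + 1) ((i + 1) * (2 * t + 1)) := by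
          intro a
          refine Jun.cmul _ ?_
          by_cases hfa : fl j a
          · have : ψ j a = fun _ => 0 := by funext X; simp only [hψ, hfa, if_true]
            rw [this]; exact Jun.const _ _ _
          · by_cases hjm : j = ms
            · have : ψ j a = fun X => (if i = 0 then (1 : ℝ) else e a (F j a v)) := by
                funext X
                rw [hjm] at hfa
                simp only [hψ, hjm, if_true, Nat.sub_self, val, Function.update_self]
                rw [if_neg hfa]
              rw [this]; exact Jun.const _ _ _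
            · have : ψ j a = G (j + 1) (F j a v) := by
                funext X; simp only [hψ, hfa, if_false, hjm]
              rw [this]
              exact (hGs (j + 1) (F j a v) (by omega) (by omega)).1
        exact Jun.family (by omega) hfam
      · by_cases h : s + d = ms + 1
        · have : ω = fun X => e (X ms) v := by
            funext X
            simp only [hω, h, if_true, hω', Nat.sub_self, val]
            rw [if_neg (by omega)]
          rw [this]
          refine Jun.mono ?_ (Jun.mul (T_cnt_jun hit t (by omega) hsd) (Jun.single (by omega) (fun a => e a v)))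
          have : 1 ≤ 1 + (i + 1) * (2 * t + 1) := by omega
          omega
        · have : ω = fun X => T t (cnt fl (s + d) (ms + 1) X) := by
            simp only [hω, h, if_false]
          rw [this]
          refine Jun.mono ?_ (Jun.mul (T_cnt_jun hit t (by omega) hsd) (T_cnt_jun fl t hsd le_rfl))
          have : 2 * t ≤ 1 + (i + 1) * (2 * t + 1) := by nlinarith
          omega
    · -- dependence
      intro X Y H
      have hXY : ∀ l, s ≤ l → l < ms + 1 → X l = Y l := fun l h1 h2 => H l ⟨h1, h2⟩
      show _ + _ = _ + _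
      congr 1
      · refine Finset.sum_congr rfl fun j hj => ?_
        rw [Finset.mem_Ico] at hj
        rw [cnt_dep hit s j X Y (fun l h1 h2 => hXY l h1 (by omega)), hXY j hj.1 (by omega)]
        congr 2
        exact hψdep j hj.1 hj.2 (Y j) X Y (fun l hl => by
          simp only [Set.mem_Ico] at hl
          exact hXY l (by omega) (by omega))
      · rw [cnt_dep hit s (s + d) X Y (fun l h1 h2 => hXY l h1 (by omega))]
        congr 1
        by_cases h : s + d = ms + 1
        · simp only [hω, h, if_true, hω', Nat.sub_self, val]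
          rw [hXY ms hs' (by omega)]
        · simp only [hω, h, if_false]
          rw [cnt_dep fl (s + d) (ms + 1) X Y (fun l h1 h2 => hXY l (by omega) h2)]
    · intro X
      rw [← hval X]
      exact hst1 X
    · rw [E_congr hval] at hst2
      refine hst2.trans ?_
      have h1 := E_choose (M := ms + 1) hit t (show s ≤ s + d by omega) hsd C hd2
      unfold eb
      push_cast
      linarith

end

end Pool.Agent.H73.FW
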