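import Pool.Agent.H73.FW.Rec

/-!
Unlimited resets on top of few writes.
-/

open Finset
open scoped BigOperators

namespace Pool.Agent.H73.FW

section

variable {A : Type*} {V : Type*}

/-- Value of a run with resets: the number of writes left is set to `K` by every reset. -/
noncomputable def out (F : ℕ → A → V → V) (fl : ℕ → A → Prop) (e : A → V → ℝ) (ms K : ℕ) :
    ℕ → ℕ → ℕ → V → (ℕ → A) → ℝ
  | 0, i, _, v, X => if i = 0 then 1 else e (X ms) v
  | d + 1, i, j, v, X => open Classical in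
      out F fl e ms K d (if fl j (X j) then K else if F j (X j) v = v then i else i - 1) (j + 1)
        (F j (X j) v) X

variable (F : ℕ → A → V → V) (fl : ℕ → A → Prop) (e : A → V → ℝ) (ms K : ℕ)

lemma out_nonneg (he0 : ∀ a v, 0 ≤ e a v) : ∀ (d i j : ℕ) (v : V) (X : ℕ → A),
    0 ≤ out F fl e ms K d i j v X := by
  intro d
  induction d with
  | zero =>
    intro i j v X
    unfold out
    split_ifs
    · norm_num
    · exact he0 _ _
  | succ d ih => intro i j v X; unfold out; exact ih _ _ _ _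

lemma out_le_one (he1 : ∀ a v, e a v ≤ 1) : ∀ (d i j : ℕ) (v : V) (X : ℕ → A),
    out F fl e ms K d i j v X ≤ 1 := by
  intro d
  induction d with
  | zero =>
    intro i j v X
    unfold out
    split_ifs
    · norm_num
    · exact he1 _ _
  | succ d ih => intro i j v X; unfold out; exact ih _ _ _ _

lemma out_decomp (κ : ℕ → A → V) (hκ : ∀ j a, fl j a → ∀ v, F j a v = κ j a) :
    ∀ (d i j : ℕ) (v : V) (X : ℕ → A), out F fl e ms K d i j v X = val F fl e ms d i j v X +
      ∑ l ∈ Ico j (j + d), ind fl l (X l) *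
        val F fl e ms (j + d - (l + 1)) K (l + 1) (κ l (X l)) X := by
  classical
  intro d
  induction d with
  | zero => intro i j v X; simp [out, val]
  | succ d ih =>
    intro i j v X
    rw [out, ih, Finset.sum_eq_sum_Ico_succ_bot (by omega : j < j + (d + 1)),
      show j + 1 + d = j + (d + 1) by ring, val]
    by_cases h : fl j (X j)
    · rw [if_pos h, if_pos h, hκ j _ h]
      have h1 : ind fl j (X j) = 1 := by unfold ind; rw [if_pos h]
      rw [h1, one_mul, zero_add, show j + (d + 1) - (j + 1) = d by omega]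
    · rw [if_neg h, if_neg h]
      have h1 : ind fl j (X j) = 0 := by unfold ind; rw [if_neg h]
      rw [h1, zero_mul, zero_add]

variable [Fintype A] [Nonempty A]

omit [Fintype A] [Nonempty A] in
lemma cnt_mono (hit : ℕ → A → Prop) {s s' j : ℕ} (h : s ≤ s') (X : ℕ → A) :
    cnt hit s' j X ≤ cnt hit s j X := by
  classical
  unfold cnt
  apply Finset.card_le_card
  intro l hl
  rw [Finset.mem_filter, Finset.mem_Ico] at hl ⊢
  exact ⟨⟨by omega, hl.1.2⟩, hl.2⟩

theorem upper_out (κ : ℕ → A → V) (hκ : ∀ j a, fl j a → ∀ v, F j a v = κ j a)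
    (he0 : ∀ a v, 0 ≤ e a v) (he1 : ∀ a v, e a v ≤ 1) (C : ℝ) (hC : 0 ≤ C) (t : ℕ)
    (heb : eb C t K ≤ 1) (v0 : V) :
    ∃ g ∈ Jun A (ms + 1) (1 + (K + 1) * (2 * t + 1)),
      (∀ X, out F fl e ms K (ms + 1) K 0 v0 X ≤ g X) ∧
      E (ms + 1) g - E (ms + 1) (out F fl e ms K (ms + 1) K 0 v0) ≤
        C * eb C t K + eb C t K + Real.exp (2 * C) / 2 ^ (2 * t + 1) + Real.exp (-(C - 1)) := by
  classical
  obtain ⟨J0, hJ1, hJ2, hJ3⟩ := cutoff_right (haz fl) (haz_le_one fl) C hC (ms + 1)
  have hup := upper F fl e ms he0 he1 C hC t J0 hJ2 K heb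
  set δ := Real.exp (2 * C) / 2 ^ (2 * t + 1) with hδ
  have hδ0 : 0 ≤ δ := by positivity
  have heb0 : 0 ≤ eb C t K := by unfold eb; positivity
  set G : ℕ → V → (ℕ → A) → ℝ := fun j v => if h : J0 ≤ j ∧ j ≤ ms then (hup j h.1 h.2 v).choose
    else fun _ => 0 with hGdef
  have hGs : ∀ j v, J0 ≤ j → j ≤ ms → G j v ∈ Jun A (ms + 1) ((K + 1) * (2 * t + 1)) ∧
      DepOn (Set.Ico j (ms + 1)) (G j v) ∧
      (∀ X, val F fl e ms (ms + 1 - j) K j v X ≤ G j v X) ∧
      E (ms + 1) (G j v) - E (ms + 1) (val F fl e ms (ms + 1 - j) K j v) ≤ eb C t K := by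
    intro j v h1 h2
    simp only [hGdef, h1, h2, and_self, dif_pos]
    exact (hup j h1 h2 v).choose_spec
  -- the families
  set ψ' : ℕ → A → (ℕ → A) → ℝ := fun j a X =>
    val F fl e ms (ms + 1 - (j + 1)) K (j + 1) (κ j a) (Function.update X j a) with hψ'
  set ψ : ℕ → A → (ℕ → A) → ℝ := fun j a X => if j = ms then ψ' j a X else G (j + 1) (κ j a) X
    with hψ
  have hvalup : ∀ j, j < ms → ∀ (a : A) (w : V) (X : ℕ → A),
      val F fl e ms (ms + 1 - (j + 1)) K (j + 1) w (Function.update X j a) =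
      val F fl e ms (ms + 1 - (j + 1)) K (j + 1) w X := by
    intro j hj a w X
    apply val_dep
    intro l hl
    rw [Function.update_of_ne]
    rintro rfl
    rcases hl with hl | hl
    · simp only [Set.mem_Ico] at hl; omega
    · simp only [Set.mem_singleton_iff] at hl; omega
  have hψ'dep : ∀ j, j < ms + 1 → ∀ a, DepOn (Set.Ico (j + 1) (ms + 1)) (ψ' j a) := by
    intro j hj2 a X Y H
    simp only [hψ']
    apply val_dep
    intro l hl
    by_cases hlj : l = j
    · subst hlj; simp
    · rw [Function.update_of_ne hlj, Function.update_of_ne hlj]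
      apply H
      rcases hl with hl | hl
      · simp only [Set.mem_Ico] at hl ⊢; omega
      · simp only [Set.mem_singleton_iff] at hl
        simp only [Set.mem_Ico]; omega
  have hψdep : ∀ j, J0 ≤ j → j < ms + 1 → ∀ a, DepOn (Set.Ico (j + 1) (ms + 1)) (ψ j a) := by
    intro j hj1 hj2 a X Y H
    by_cases hjm : j = ms
    · simp only [hψ, hjm, if_true]
      rw [← hjm]
      exact hψ'dep j hj2 a X Y H
    · simp only [hψ, hjm, if_false]
      exact (hGs (j + 1) (κ j a) (by omega) (by omega)).2.1 X Y H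
  have hψle : ∀ j, J0 ≤ j → j < ms + 1 → ∀ a X, ψ' j a X ≤ ψ j a X := by
    intro j hj1 hj2 a X
    by_cases hjm : j = ms
    · simp only [hψ, hjm, if_true]; exact le_rfl
    · simp only [hψ', hψ, hjm, if_false]
      rw [hvalup j (by omega)]
      exact (hGs (j + 1) (κ j a) (by omega) (by omega)).2.2.1 X
  have hψ'0 : ∀ j a X, 0 ≤ ψ' j a X := fun j a X => val_nonneg F fl e ms he0 _ _ _ _ _
  have hψ'1 : ∀ j a X, ψ' j a X ≤ 1 := fun j a X => val_le_one F fl e ms he1 _ _ _ _ _
  have hψerr : ∀ j, J0 ≤ j → j < ms + 1 → ∀ a,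
      E (ms + 1) (ψ j a) - E (ms + 1) (ψ' j a) ≤ eb C t K := by
    intro j hj1 hj2 a
    by_cases hjm : j = ms
    · have : ψ j a = ψ' j a := by funext X; simp only [hψ, hjm, if_true]
      rw [this, sub_self]; exact heb0
    · have h1 : ψ j a = G (j + 1) (κ j a) := by
        funext X; simp only [hψ, if_false, hjm]
      have h2 : E (ms + 1) (ψ' j a) =
          E (ms + 1) (val F fl e ms (ms + 1 - (j + 1)) K (j + 1) (κ j a)) := by
        apply E_congr
        intro X
        simp only [hψ']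
        rw [hvalup j (by omega)]
      rw [h1, h2]
      exact (hGs (j + 1) (κ j a) (by omega) (by omega)).2.2.2
  -- the decomposition
  have hout : ∀ X, out F fl e ms K (ms + 1) K 0 v0 X = val F fl e ms (ms + 1) K 0 v0 X +
      ∑ l ∈ Ico 0 J0, ind fl l (X l) * ψ' l (X l) X +
      ∑ l ∈ Ico J0 (ms + 1), ind fl l (X l) * ψ' l (X l) X := by
    intro X
    rw [out_decomp F fl e ms K κ hκ, add_assoc, Nat.zero_add,
      Finset.sum_Ico_consecutive _ (Nat.zero_le _) hJ1]
    congr 1
    refine Finset.sum_congr rfl fun l _ => ?_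
    simp only [hψ', Function.update_eq_self]
  -- the head
  set hd : (ℕ → A) → ℝ := fun X => val F fl e ms (ms + 1) K 0 v0 X +
      ∑ l ∈ Ico 0 J0, ind fl l (X l) * ψ' l (X l) X with hhd
  have hhd0 : ∀ X, 0 ≤ hd X := by
    intro X
    apply add_nonneg (val_nonneg F fl e ms he0 _ _ _ _ _)
    exact Finset.sum_nonneg fun l _ => mul_nonneg (ind_nonneg _ _ _) (hψ'0 _ _ _)
  have hhd1 : ∀ X, hd X ≤ P0 (cnt fl J0 (ms + 1) X) := by
    intro X
    by_cases hc : cnt fl J0 (ms + 1) X = 0
    · have h1 : ∑ l ∈ Ico J0 (ms + 1), ind fl l (X l) * ψ' l (X l) X = 0 := by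
        apply Finset.sum_eq_zero
        intro l hl
        unfold cnt at hc
        rw [Finset.card_eq_zero, Finset.filter_eq_empty_iff] at hc
        have : ind fl l (X l) = 0 := by unfold ind; rw [if_neg (hc hl)]
        rw [this, zero_mul]
      have h2 := hout X
      rw [h1, add_zero] at h2
      rw [hc]
      simp only [hhd, P0, if_true]
      rw [← h2]
      exact out_le_one F fl e ms K he1 _ _ _ _ _
    · have h1 : val F fl e ms (ms + 1) K 0 v0 X ≤ 0 := by
        refine (val_le_NR F fl e ms he1 _ _ _ _ X).trans (le_of_eq ?_)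
        have := cnt_mono fl (j := ms + 1) (Nat.zero_le J0) X
        unfold P0
        rw [if_neg (by rw [Nat.zero_add]; omega)]
      have h2 : ∑ l ∈ Ico 0 J0, ind fl l (X l) * ψ' l (X l) X = 0 := by
        apply Finset.sum_eq_zero
        intro l hl
        rw [Finset.mem_Ico] at hl
        have h3 : ψ' l (X l) X ≤ 0 := by
          simp only [hψ', Function.update_eq_self]
          refine (val_le_NR F fl e ms he1 _ _ _ _ X).trans (le_of_eq ?_)
          have := cnt_mono fl (j := ms + 1) (show l + 1 ≤ J0 by omega) X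
          unfold P0
          rw [if_neg (by rw [show l + 1 + (ms + 1 - (l + 1)) = ms + 1 by omega]; omega)]
        rw [le_antisymm h3 (hψ'0 _ _ _), mul_zero]
      have : hd X ≤ 0 := by simp only [hhd]; rw [h2, add_zero]; exact h1
      exact this.trans (P0_nonneg _)
  set H : (ℕ → A) → ℝ := if J0 = 0 then G 0 v0 else fun X => T t (cnt fl J0 (ms + 1) X) with hH
  have hhdH : ∀ X, hd X ≤ H X := by
    intro X
    by_cases h0 : J0 = 0
    · simp only [hH, h0, if_true, hhd, Finset.Ico_self, Finset.sum_empty, add_zero]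
      exact (hGs 0 v0 (by omega) (by omega)).2.2.1 X
    · simp only [hH, h0, if_false]
      exact (hhd1 X).trans (P0_le_T _ _)
  have hHerr : E (ms + 1) H - E (ms + 1) hd ≤ eb C t K + δ + Real.exp (-(C - 1)) := by
    have hη0 : 0 ≤ Real.exp (-(C - 1)) := (Real.exp_pos _).le
    by_cases h0 : J0 = 0
    · have h1 : H = G 0 v0 := by simp only [hH, h0, if_true]
      have h2 : hd = val F fl e ms (ms + 1) K 0 v0 := by
        funext X
        simp only [h0, hhd, Finset.Ico_self, Finset.sum_empty, add_zero]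
      rw [h1, h2]
      have := (hGs 0 v0 (by omega) (by omega)).2.2.2
      rw [Nat.sub_zero] at this
      linarith
    · have h1 : E (ms + 1) H ≤ E (ms + 1) (fun X : ℕ → A => P0 (cnt fl J0 (ms + 1) X)) + δ := by
        have h2 := E_T_le (M := ms + 1) fl t hJ1 le_rfl C hJ2
        simp only [hH, h0, if_false]
        linarith
      have h2 := E_P0 (M := ms + 1) fl hJ1 le_rfl
      have h3 : Real.exp (-∑ l ∈ Ico J0 (ms + 1), haz fl l) ≤ Real.exp (-(C - 1)) := by
        apply Real.exp_le_exp.mpr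
        rcases hJ3 with h | h
        · exact absurd h h0
        · linarith
      have h4 : 0 ≤ E (ms + 1) hd := E_nonneg hhd0
      linarith
  refine ⟨fun X => H X + ∑ l ∈ Ico J0 (ms + 1), ind fl l (X l) * ψ l (X l) X, ?_, ?_, ?_⟩
  · refine Jun.add ?_ ?_
    · by_cases h0 : J0 = 0
      · have h1 : H = G 0 v0 := by simp only [hH, h0, if_true]
        rw [h1]
        exact Jun.mono (by omega) (hGs 0 v0 (by omega) (by omega)).1
      · have h1 : H = fun X => T t (cnt fl J0 (ms + 1) X) := by simp only [hH, h0, if_false]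
        rw [h1]
        refine Jun.mono ?_ (T_cnt_jun fl t hJ1 le_rfl)
        have : 2 * t ≤ (K + 1) * (2 * t + 1) := by nlinarith
        omega
    · refine Jun.sum _ fun j hj => ?_
      rw [Finset.mem_Ico] at hj
      have hfam : ∀ a, (fun X => ind fl j a * ψ j a X) ∈ Jun A (ms + 1) ((K + 1) * (2 * t + 1)) := by
        intro a
        refine Jun.cmul _ ?_
        by_cases hjm : j = ms
        · have : ψ j a = fun X => (if K = 0 then (1 : ℝ) else e a (κ j a)) := by
            funext X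
            simp only [hψ, hψ', hjm, if_true, Nat.sub_self, val, Function.update_self]
          rw [this]; exact Jun.const _ _ _
        · have : ψ j a = G (j + 1) (κ j a) := by
            funext X; simp only [hψ, if_false, hjm]
          rw [this]
          exact (hGs (j + 1) (κ j a) (by omega) (by omega)).1
      exact Jun.family (by omega) hfam
  · intro X
    rw [hout X]
    apply add_le_add (hhdH X)
    refine Finset.sum_le_sum fun j hj => ?_
    rw [Finset.mem_Ico] at hj
    exact mul_le_mul_of_nonneg_left (hψle j hj.1 hj.2 _ _) (ind_nonneg _ _ _)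
  · rw [E_congr hout, E_add, E_add, E_sum, E_sum]
    have hsum : ∀ j ∈ Ico J0 (ms + 1),
        E (ms + 1) (fun X => ind fl j (X j) * ψ j (X j) X) -
        E (ms + 1) (fun X => ind fl j (X j) * ψ' j (X j) X) ≤ eb C t K * haz fl j := by
      intro j hj
      rw [Finset.mem_Ico] at hj
      have e1 := E_one (M := ms + 1) hj.2 (fun a X => ind fl j a * ψ j a X)
        (fun a X Y H => by
          show _ * _ = _ * _
          rw [hψdep j hj.1 hj.2 a X Y (fun l hl => H l (by
            simp only [Set.mem_Ico, Set.mem_Ioi] at hl ⊢; omega))])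
        (fun a X Y H => by
          show _ * _ = _ * _
          rw [hψdep j hj.1 hj.2 a X Y (fun l hl => H l (by
            simp only [Set.mem_Ico, Set.mem_Iio] at hl ⊢; omega))])
      have e2 := E_one (M := ms + 1) hj.2 (fun a X => ind fl j a * ψ' j a X)
        (fun a X Y H => by
          show _ * _ = _ * _
          rw [hψ'dep j hj.2 a X Y (fun l hl => H l (by
            simp only [Set.mem_Ico, Set.mem_Ioi] at hl ⊢; omega))])
        (fun a X Y H => by
          show _ * _ = _ * _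
          rw [hψ'dep j hj.2 a X Y (fun l hl => H l (by
            simp only [Set.mem_Ico, Set.mem_Iio] at hl ⊢; omega))])
      rw [e1, e2, ← Finset.expect_sub_distrib]
      unfold haz
      rw [Finset.mul_expect]
      refine Finset.expect_le_expect fun a _ => ?_
      rw [E_const_mul, E_const_mul, ← mul_sub, mul_comm]
      exact mul_le_mul_of_nonneg_right (hψerr j hj.1 hj.2 a) (ind_nonneg _ _ _)
    have hs := Finset.sum_le_sum hsum
    rw [Finset.sum_sub_distrib, ← Finset.mul_sum] at hs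
    have h1 : eb C t K * ∑ l ∈ Ico J0 (ms + 1), haz fl l ≤ C * eb C t K := by
      rw [mul_comm]
      exact mul_le_mul_of_nonneg_right hJ2 heb0
    have h2 : E (ms + 1) (fun X => val F fl e ms (ms + 1) K 0 v0 X +
      ∑ l ∈ Ico 0 J0, ind fl l (X l) * ψ' l (X l) X) = E (ms + 1) hd := rfl
    rw [h2]
    linarith

/-- One-sided bound for a source with bounded independence. -/
theorem out_kwi {Ω : Type*} [Fintype Ω] [Nonempty Ω] (κ : ℕ → A → V)
    (hκ : ∀ j a, fl j a → ∀ v, F j a v = κ j a)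
    (he0 : ∀ a v, 0 ≤ e a v) (he1 : ∀ a v, e a v ≤ 1) (C : ℝ) (hC : 0 ≤ C) (t : ℕ)
    (heb : eb C t K ≤ 1) (v0 : V) (Y : Ω → ℕ → A)
    (hY : KWI (ms + 1) (1 + (K + 1) * (2 * t + 1)) Y) :
    𝔼 ω, out F fl e ms K (ms + 1) K 0 v0 (Y ω) ≤
      E (ms + 1) (out F fl e ms K (ms + 1) K 0 v0) +
        (C * eb C t K + eb C t K + Real.exp (2 * C) / 2 ^ (2 * t + 1) + Real.exp (-(C - 1))) := by
  obtain ⟨g, hg1, hg2, hg3⟩ := upper_out F fl e ms K κ hκ he0 he1 C hC t heb v0
  have h1 : 𝔼 ω, out F fl e ms K (ms + 1) K 0 v0 (Y ω) ≤ 𝔼 ω, g (Y ω) :=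
    Finset.expect_le_expect fun ω _ => hg2 _
  rw [hY.jun hg1] at h1
  linarith

end

/-- The error can be made small. -/
theorem exists_params (K : ℕ) (ε : ℝ) (hε : 0 < ε) : ∃ C : ℝ, 0 ≤ C ∧ ∃ t : ℕ, eb C t K ≤ 1 ∧
    C * eb C t K + eb C t K + Real.exp (2 * C) / 2 ^ (2 * t + 1) + Real.exp (-(C - 1)) ≤ ε := by
  set ε' := min ε 1 with hε'
  have hε'0 : 0 < ε' := lt_min hε one_pos
  -- choose `C`
  obtain ⟨x, hx0, hx⟩ : ∃ x : ℝ, 0 ≤ x ∧ (x + 2) * (2 * K * Real.exp (-x)) + Real.exp (-x) ≤ ε' / 2 := by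
    have h1 : Filter.Tendsto (fun x : ℝ => (2 * K : ℝ) * (x ^ 1 * Real.exp (-x)) +
        (4 * K + 1 : ℝ) * (x ^ 0 * Real.exp (-x))) Filter.atTop
        (nhds ((2 * K : ℝ) * 0 + (4 * K + 1 : ℝ) * 0)) :=
      ((Real.tendsto_pow_mul_exp_neg_atTop_nhds_zero 1).const_mul _).add
        ((Real.tendsto_pow_mul_exp_neg_atTop_nhds_zero 0).const_mul _)
    have h2 : ((2 * K : ℝ) * 0 + (4 * K + 1 : ℝ) * 0) < ε' / 2 := by
      simp only [mul_zero, add_zero]; positivity
    have h3 := (h1.eventually_lt_const h2).and (Filter.eventually_ge_atTop (0 : ℝ))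
    obtain ⟨x, hx1, hx2⟩ := h3.exists
    refine ⟨x, hx2, ?_⟩
    have : (x + 2) * (2 * K * Real.exp (-x)) + Real.exp (-x) =
      2 * K * (x ^ 1 * Real.exp (-x)) + (4 * K + 1) * (x ^ 0 * Real.exp (-x)) := by ring
    rw [this]; exact hx1.le
  -- choose `t`
  set L : ℝ := (x + 2) * (1 + 2 * K) + 1 with hL
  have hL0 : 0 < L := by positivity
  obtain ⟨m, hm⟩ := pow_unbounded_of_one_lt (Real.exp (2 * (x + 1)) * L * (2 / ε')) (one_lt_two)
  have hδ : Real.exp (2 * (x + 1)) / 2 ^ (2 * m + 1) * L ≤ ε' / 2 := by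
    have h1 : (2 : ℝ) ^ m ≤ 2 ^ (2 * m + 1) := pow_le_pow_right₀ (by norm_num) (by omega)
    have h2 : (0 : ℝ) < 2 ^ (2 * m + 1) := by positivity
    rw [div_mul_eq_mul_div, div_le_iff₀ h2]
    have h3 : Real.exp (2 * (x + 1)) * L * (2 / ε') ≤ 2 ^ (2 * m + 1) := hm.le.trans h1
    have h4 := mul_le_mul_of_nonneg_left h3 (show 0 ≤ ε' / 2 by positivity)
    have h5 : ε' / 2 * (Real.exp (2 * (x + 1)) * L * (2 / ε')) = Real.exp (2 * (x + 1)) * L := by
      field_simp
    rw [h5] at h4
    exact h4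
  set δ := Real.exp (2 * (x + 1)) / 2 ^ (2 * m + 1) with hδdef
  have hδ0 : 0 ≤ δ := by positivity
  have hη0 : 0 ≤ Real.exp (-x) := (Real.exp_pos _).le
  have key : (x + 1) * eb (x + 1) m K + eb (x + 1) m K + δ + Real.exp (-(x + 1 - 1)) ≤ ε' := by
    have e1 : (x + 1) * eb (x + 1) m K + eb (x + 1) m K + δ + Real.exp (-(x + 1 - 1)) =
        δ * L + ((x + 2) * (2 * K * Real.exp (-x)) + Real.exp (-x)) := by
      unfold eb
      rw [← hδdef, show x + 1 - 1 = x by ring]
      simp only [hL]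
      ring
    rw [e1]; linarith
  refine ⟨x + 1, by linarith, m, ?_, key.trans (min_le_left _ _)⟩
  have h1 : 0 ≤ (x + 1) * eb (x + 1) m K := by
    apply mul_nonneg (by linarith)
    unfold eb; positivity
  have h2 : 0 ≤ Real.exp (-(x + 1 - 1)) := (Real.exp_pos _).le
  have h3 : ε' ≤ 1 := min_le_right _ _
  linarith

end Pool.Agent.H73.FW
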