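import Pool.Agent.H73.FW.Bon

/-!
One stage of the first-hit decomposition.
-/

open Finset
open scoped BigOperators

namespace Pool.Agent.H73.FW

variable {A : Type*} [Fintype A] [Nonempty A] {M : ℕ}

omit [Fintype A] [Nonempty A] in
lemma cnt_fun_dep (hit : ℕ → A → Prop) (f : ℕ → ℝ) (s j : ℕ) :
    DepOn (Set.Iio j) (fun X : ℕ → A => f (cnt hit s j X)) := by
  intro X Y H
  show f _ = f _
  rw [cnt_dep hit s j X Y (fun l _ hl => H l hl)]

/-- Expectation of a function of the count before `j` times a function of coordinate `j` and of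
later coordinates. -/
lemma E_hit (hit : ℕ → A → Prop) (f : ℕ → ℝ) {s j : ℕ} (hj : j < M) (ψ : A → (ℕ → A) → ℝ)
    (hψ : ∀ a, DepOn (Set.Ioi j) (ψ a)) (hψM : ∀ a, DepOn (Set.Iio M) (ψ a)) :
    E M (fun X => f (cnt hit s j X) * (ind hit j (X j) * ψ (X j) X)) =
      E M (fun X : ℕ → A => f (cnt hit s j X)) * 𝔼 a, ind hit j a * E M (ψ a) := by
  have h3 := E_three (M := M) hj (cnt_fun_dep hit f s j)
    (fun (a : A) (X : ℕ → A) => ind hit j a * ψ a X)
    (fun a X Y H => by show _ * _ = _ * _; rw [hψ a X Y H])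
    (fun a X Y H => by show _ * _ = _ * _; rw [hψM a X Y H])
  refine h3.trans ?_
  congr 1
  refine Finset.expect_congr rfl fun a _ => ?_
  exact E_const_mul M _ _

theorem stage (hit : ℕ → A → Prop) (t s d : ℕ) (hd : s + d ≤ M)
    (ψ ψ' : ℕ → A → (ℕ → A) → ℝ) (ω ω' : (ℕ → A) → ℝ) (β err η : ℝ)
    (hψ : ∀ j, s ≤ j → j < s + d → ∀ a, DepOn (Set.Ioi j) (ψ j a))
    (hψM : ∀ j, s ≤ j → j < s + d → ∀ a, DepOn (Set.Iio M) (ψ j a))
    (hψ' : ∀ j, s ≤ j → j < s + d → ∀ a, DepOn (Set.Ioi j) (ψ' j a))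
    (hψM' : ∀ j, s ≤ j → j < s + d → ∀ a, DepOn (Set.Iio M) (ψ' j a))
    (h0 : ∀ j, s ≤ j → j < s + d → ∀ a X, 0 ≤ ψ' j a X)
    (h1 : ∀ j, s ≤ j → j < s + d → ∀ a X, ψ' j a X ≤ ψ j a X)
    (hω0 : ∀ X, 0 ≤ ω' X) (hω1 : ∀ X, ω' X ≤ ω X)
    (herr0 : 0 ≤ err)
    (hβ : ∀ j, s ≤ j → j < s + d → ∀ a, E M (ψ j a) ≤ β)
    (herr : ∀ j, s ≤ j → j < s + d → ∀ a, E M (ψ j a) - E M (ψ' j a) ≤ err)
    (hω : E M (fun X => (T t (cnt hit s (s + d) X) - P0 (cnt hit s (s + d) X)) * ω X) ≤
      β * E M (fun X => T t (cnt hit s (s + d) X) - P0 (cnt hit s (s + d) X)))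
    (hη : E M (fun X => P0 (cnt hit s (s + d) X) * (ω X - ω' X)) ≤ η) :
    (∀ X, ∑ j ∈ Ico s (s + d), P0 (cnt hit s j X) * (ind hit j (X j) * ψ' j (X j) X) +
        P0 (cnt hit s (s + d) X) * ω' X ≤
      ∑ j ∈ Ico s (s + d), T t (cnt hit s j X) * (ind hit j (X j) * ψ j (X j) X) +
        T t (cnt hit s (s + d) X) * ω X) ∧
    E M (fun X => ∑ j ∈ Ico s (s + d), T t (cnt hit s j X) * (ind hit j (X j) * ψ j (X j) X) +
        T t (cnt hit s (s + d) X) * ω X) -
      E M (fun X => ∑ j ∈ Ico s (s + d), P0 (cnt hit s j X) * (ind hit j (X j) * ψ' j (X j) X) +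
        P0 (cnt hit s (s + d) X) * ω' X) ≤
      β * E M (fun X => ((cnt hit s (s + d) X).choose (2 * t + 1) : ℝ)) + err + η := by
  constructor
  · intro X
    apply add_le_add
    · refine Finset.sum_le_sum fun j hj => ?_
      rw [Finset.mem_Ico] at hj
      have a1 := P0_le_T t (cnt hit s j X)
      have a2 := P0_nonneg (cnt hit s j X)
      have a3 := ind_nonneg hit j (X j)
      have a4 := h0 j hj.1 hj.2 (X j) X
      have a5 := h1 j hj.1 hj.2 (X j) X
      apply mul_le_mul a1 (mul_le_mul_of_nonneg_left a5 a3) (mul_nonneg a3 a4) (a2.trans a1)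
    · exact mul_le_mul (P0_le_T t _) (hω1 X) (hω0 X) (T_nonneg t _)
  · rw [E_add, E_add, E_sum, E_sum]
    set eT : ℕ → ℝ := fun j => E M (fun X : ℕ → A => T t (cnt hit s j X)) with heT
    set eP : ℕ → ℝ := fun j => E M (fun X : ℕ → A => P0 (cnt hit s j X)) with heP
    have hTP : ∀ j, eP j ≤ eT j := fun j => E_mono fun X => P0_le_T t _
    have hP0 : ∀ j, 0 ≤ eP j := fun j => E_nonneg fun X => P0_nonneg _
    -- each summand
    have hsum : ∀ j ∈ Ico s (s + d),
        E M (fun X => T t (cnt hit s j X) * (ind hit j (X j) * ψ j (X j) X)) -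
        E M (fun X => P0 (cnt hit s j X) * (ind hit j (X j) * ψ' j (X j) X)) ≤
        β * ((eT j - eP j) * haz hit j) + err * (eP j * haz hit j) := by
      intro j hj
      rw [Finset.mem_Ico] at hj
      rw [E_hit hit (T t) (by omega) (ψ j) (hψ j hj.1 hj.2) (hψM j hj.1 hj.2),
        E_hit hit P0 (by omega) (ψ' j) (hψ' j hj.1 hj.2) (hψM' j hj.1 hj.2)]
      have b1 : 𝔼 a, ind hit j a * E M (ψ j a) ≤ β * haz hit j := by
        unfold haz
        rw [Finset.mul_expect]
        refine Finset.expect_le_expect fun a _ => ?_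
        rw [mul_comm]
        exact mul_le_mul_of_nonneg_right (hβ j hj.1 hj.2 a) (ind_nonneg _ _ _)
      have b2 : 𝔼 a, ind hit j a * E M (ψ j a) - 𝔼 a, ind hit j a * E M (ψ' j a) ≤
          err * haz hit j := by
        unfold haz
        rw [Finset.mul_expect, ← Finset.expect_sub_distrib]
        refine Finset.expect_le_expect fun a _ => ?_
        rw [← mul_sub, mul_comm]
        exact mul_le_mul_of_nonneg_right (herr j hj.1 hj.2 a) (ind_nonneg _ _ _)
      have c1 : (eT j - eP j) * 𝔼 a, ind hit j a * E M (ψ j a) ≤ (eT j - eP j) * (β * haz hit j) :=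
        mul_le_mul_of_nonneg_left b1 (by have := hTP j; linarith)
      have c2 := mul_le_mul_of_nonneg_left b2 (hP0 j)
      show eT j * _ - eP j * _ ≤ _
      nlinarith
    have hlast : E M (fun X => T t (cnt hit s (s + d) X) * ω X) -
        E M (fun X => P0 (cnt hit s (s + d) X) * ω' X) ≤
        β * (eT (s + d) - eP (s + d)) + η := by
      have e1 : E M (fun X => T t (cnt hit s (s + d) X) * ω X) -
          E M (fun X => P0 (cnt hit s (s + d) X) * ω' X) =
          E M (fun X => (T t (cnt hit s (s + d) X) - P0 (cnt hit s (s + d) X)) * ω X) +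
          E M (fun X => P0 (cnt hit s (s + d) X) * (ω X - ω' X)) := by
        rw [← E_sub, ← E_add]
        exact E_congr fun X => by ring
      rw [e1]
      rw [E_sub] at hω
      linarith
    -- the telescoping identities in expectation
    have hT := congrArg (E M) (funext (T_telescope hit t s d))
    have hP := congrArg (E M) (funext (P_telescope hit s d))
    rw [E_add, E_sum, E_add, E_const] at hT
    rw [E_add, E_sum, E_const] at hP
    have e2 : ∀ j ∈ Ico s (s + d), E M (fun X => T t (cnt hit s j X) * ind hit j (X j)) =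
        eT j * haz hit j := by
      intro j hj
      rw [Finset.mem_Ico] at hj
      have := E_hit (M := M) hit (T t) (s := s) (show j < M by omega) (fun _ _ => (1 : ℝ))
        (fun a => DepOn.const _ _) (fun a => DepOn.const _ _)
      simp only [mul_one, E_const] at this
      exact this
    have e3 : ∀ j ∈ Ico s (s + d), E M (fun X => P0 (cnt hit s j X) * ind hit j (X j)) =
        eP j * haz hit j := by
      intro j hj
      rw [Finset.mem_Ico] at hj
      have := E_hit (M := M) hit P0 (s := s) (show j < M by omega) (fun _ _ => (1 : ℝ))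
        (fun a => DepOn.const _ _) (fun a => DepOn.const _ _)
      simp only [mul_one, E_const] at this
      exact this
    rw [Finset.sum_congr rfl e2] at hT
    rw [Finset.sum_congr rfl e3] at hP
    have hs := Finset.sum_le_sum hsum
    rw [Finset.sum_sub_distrib, Finset.sum_add_distrib, ← Finset.mul_sum, ← Finset.mul_sum] at hs
    have e4 : ∑ j ∈ Ico s (s + d), (eT j - eP j) * haz hit j =
        ∑ j ∈ Ico s (s + d), eT j * haz hit j - ∑ j ∈ Ico s (s + d), eP j * haz hit j := by
      rw [← Finset.sum_sub_distrib]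
      exact Finset.sum_congr rfl fun j _ => by ring
    rw [e4] at hs
    have hT' : ∑ j ∈ Ico s (s + d), eT j * haz hit j =
        1 + E M (fun X => ((cnt hit s (s + d) X).choose (2 * t + 1) : ℝ)) - eT (s + d) := by
      linarith
    have hP' : ∑ j ∈ Ico s (s + d), eP j * haz hit j = 1 - eP (s + d) := by linarith
    rw [hT', hP'] at hs
    have c3 : err * (1 - eP (s + d)) ≤ err := by
      have := hP0 (s + d)
      nlinarith
    linarith

end Pool.Agent.H73.FW
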