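import Pool.Agent.H73.FW.Block
import Pool.Agent.H73.FW.Defs

/-!
Bounded independence of the blocks fools programs whose long-term memory is rarely changed.
-/

open Finset
open scoped BigOperators

namespace Pool.Agent.H73.FW

open Pool.Agent.H9.PRG

section

variable {n L : ℕ} {V : Type}

/-- The step `t` is constant. -/
def WinMem.cst (D : WinMem n L V) (t : ℕ) (x : ℕ → Bool) : Prop := ∃ w, ∀ v, D.upd t x v = w

lemma WinMem.rs_eq (D : WinMem n L V) (K : ℕ) (x : ℕ → Bool) : ∀ t,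
    rs D.upd D.cst K D.init id (fun _ => x) t = (K - D.changes x t, D.mem x t) := by
  classical
  intro t
  induction t with
  | zero => rfl
  | succ t ih =>
    rw [rs, ih, WinMem.changes, WinMem.mem]
    simp only [WinMem.cst]
    refine Prod.ext ?_ rfl
    dsimp only
    by_cases h1 : ∃ w, ∀ v, D.upd t x v = w
    · rw [if_pos h1, if_pos h1]; rfl
    · rw [if_neg h1, if_neg h1]
      split_ifs <;> omega

/-- Indicator of at least `K` changes. -/
noncomputable def WinMem.phi (D : WinMem n L V) (K : ℕ) (x : ℕ → Bool) : ℝ :=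
  if K ≤ D.changes x n then 1 else 0

lemma WinMem.phi_nonneg (D : WinMem n L V) (K : ℕ) (x : ℕ → Bool) : 0 ≤ D.phi K x := by
  unfold WinMem.phi; split_ifs <;> norm_num

lemma WinMem.phi_le_one (D : WinMem n L V) (K : ℕ) (x : ℕ → Bool) : D.phi K x ≤ 1 := by
  unfold WinMem.phi; split_ifs <;> norm_num

variable {A : Type*}

lemma seg_const (f : ℕ → A → V → V) (cf : ℕ → A → Prop) (μ : ℕ → ℕ)
    (hcf : ∀ t y, cf t y → ∀ v v', f t y v = f t y v') (m : ℕ) (y : A) : ∀ T,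
    sfl cf μ T m y → ∀ v v', seg f μ T m y v = seg f μ T m y v' := by
  intro T
  induction T with
  | zero => rintro ⟨t, ht, _⟩; omega
  | succ T ih =>
    intro h v v'
    rw [sfl_succ] at h
    rw [seg]
    rcases h with h | ⟨h1, h2⟩
    · split_ifs
      · rw [Function.comp_apply, Function.comp_apply, ih h v v']
      · exact ih h v v'
    · rw [if_pos h1, Function.comp_apply, Function.comp_apply]
      exact hcf T y h2 _ _

theorem sandwich (D : WinMem n L V) {B : ℕ} (hL : L ≤ B) (hB : 0 < B) (hn1 : 1 ≤ n)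
    (bit : A → ℕ → Bool) (π : ℕ) (hπ : π < 2) (Z : ℕ → A) (M : ℕ) (hn : n < 2 * B * M) (K : ℕ)
    (q : (ℕ → Bool) → V → ℝ)
    (hq : ∀ x x' : ℕ → Bool, (∀ j, n ≤ j + L → j < n → x j = x' j) → q x = q x')
    (hq0 : ∀ x v, 0 ≤ q x v) (hq1 : ∀ x v, q x v ≤ 1) :
    ∃ (F : ℕ → A → V → V) (fl : ℕ → A → Prop) (κ : ℕ → A → V) (e : A → V → ℝ) (ms : ℕ),
      ms < M ∧ (∀ j a, fl j a → ∀ v, F j a v = κ j a) ∧ (∀ a v, 0 ≤ e a v) ∧ (∀ a v, e a v ≤ 1) ∧
      ∀ X : ℕ → A,
        q (bitsOf bit B (comb π X Z)) (D.mem (bitsOf bit B (comb π X Z)) n) ≤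
          out F fl e ms K (ms + 1) K 0 D.init X ∧
        out F fl e ms K (ms + 1) K 0 D.init X ≤
          q (bitsOf bit B (comb π X Z)) (D.mem (bitsOf bit B (comb π X Z)) n) +
            D.phi K (bitsOf bit B (comb π X Z)) := by
  classical
  set xc : A → ℕ → Bool := fun y => bitsOf bit B (comb π (fun _ => y) Z) with hxc
  have hloc : ∀ (X : ℕ → A) (t j : ℕ), t ≤ j + B → j ≤ t →
      bitsOf bit B (comb π X Z) j = xc (X (mu B π t)) j := by
    intro X t j h1 h2
    simp only [hxc, bitsOf, comb]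
    split_ifs with hpar
    · rw [window_loc hB π hπ t j h1 h2 hpar]
    · rfl
  set μ := mu B π with hμ
  have hμM : μ (n - 1) < M := by
    simp only [hμ, mu]
    have h1 : (n - 1) / B < 2 * M := by
      rw [Nat.div_lt_iff_lt_mul hB]
      calc n - 1 < n := by omega
        _ < 2 * B * M := hn
        _ = 2 * M * B := by ring
    generalize (n - 1) / B = a at h1 ⊢
    omega
  set f : ℕ → A → V → V := fun t y => D.upd t (xc y) with hf
  set cf : ℕ → A → Prop := fun t y => D.cst t (xc y) with hcf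
  refine ⟨seg f μ n, sfl cf μ n, fun j a => seg f μ n j a D.init, fun a => q (xc a), μ (n - 1), hμM,
    ?_, fun a v => hq0 _ _, fun a v => hq1 _ _, ?_⟩
  · intro j a h v
    apply seg_const f cf μ _ j a n h
    rintro t y ⟨w, hw⟩ v v'
    simp only [hf]
    rw [hw, hw]
  · intro X
    set x := bitsOf bit B (comb π X Z) with hx
    -- the bit level recursion in terms of block values
    have hrs : ∀ t ≤ n, rs f cf K D.init μ X t = (K - D.changes x t, D.mem x t) := by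
      intro t ht
      rw [← D.rs_eq K x t]
      induction t with
      | zero => rfl
      | succ t ih =>
        rw [rs, rs, ih (by omega)]
        have h1 : D.upd t (xc (X (μ t))) = D.upd t x := by
          apply D.upd_local t (by omega)
          intro j h1 h2
          exact (hloc X t j (by omega) h2).symm
        simp only [hf, hcf, WinMem.cst, h1]
        congr!
    have hrsn := hrs n le_rfl
    obtain ⟨hb1, hb2⟩ := rs_block K D.init μ X f cf (mu_mono B π) n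
    rw [hrsn] at hb1 hb2
    dsimp only at hb1 hb2
    rw [out_eq, hb1]
    have hqx : q (xc (X (μ (n - 1)))) = q x := by
      apply hq
      intro j h1 h2
      exact (hloc X (n - 1) j (by omega) (by omega)).symm
    rw [hqx]
    split_ifs with h0
    · refine ⟨hq1 _ _, ?_⟩
      have h1 : D.phi K x = 1 := by
        unfold WinMem.phi
        rw [if_pos (by omega)]
      rw [h1]
      have := hq0 x (D.mem x n)
      linarith
    · refine ⟨le_rfl, ?_⟩
      have := D.phi_nonneg K x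
      linarith

variable [Fintype A] [Nonempty A]
variable {Ω : Type*} [Fintype Ω] [Nonempty Ω]

/-- the error for the constants `C`, `t`, `K` -/
noncomputable def errK (C : ℝ) (t K : ℕ) : ℝ :=
  C * eb C t K + eb C t K + Real.exp (2 * C) / 2 ^ (2 * t + 1) + Real.exp (-(C - 1))

theorem one_side_q (D : WinMem n L V) {B : ℕ} (hL : L ≤ B) (hB : 0 < B) (hn1 : 1 ≤ n)
    (bit : A → ℕ → Bool) (a0 : A) (π : ℕ) (hπ : π < 2) (Z : ℕ → A) (M : ℕ) (hn : n < 2 * B * M)
    (K : ℕ) (q : (ℕ → Bool) → V → ℝ)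
    (hq : ∀ x x' : ℕ → Bool, (∀ j, n ≤ j + L → j < n → x j = x' j) → q x = q x')
    (hq0 : ∀ x v, 0 ≤ q x v) (hq1 : ∀ x v, q x v ≤ 1)
    (C : ℝ) (hC : 0 ≤ C) (t : ℕ) (heb : eb C t K ≤ 1) (Y : Ω → ℕ → A)
    (hY : KWI M (1 + (K + 1) * (2 * t + 1)) Y) :
    𝔼 ω, q (bitsOf bit B (comb π (Y ω) Z)) (D.mem (bitsOf bit B (comb π (Y ω) Z)) n) ≤
      𝔼 u : Fin M → A, q (bitsOf bit B (comb π (Uf a0 M u) Z))
        (D.mem (bitsOf bit B (comb π (Uf a0 M u) Z)) n) +
      𝔼 u : Fin M → A, D.phi K (bitsOf bit B (comb π (Uf a0 M u) Z)) + errK C t K := by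
  obtain ⟨F, fl, κ, e, ms, hms, hκ, he0, he1, hs⟩ :=
    sandwich D hL hB hn1 bit π hπ Z M hn K q hq hq0 hq1
  have h1 := out_kwi F fl e ms K κ hκ he0 he1 C hC t heb D.init Y (hY.le (by omega))
  have h2 : 𝔼 ω, q (bitsOf bit B (comb π (Y ω) Z)) (D.mem (bitsOf bit B (comb π (Y ω) Z)) n) ≤
      𝔼 ω, out F fl e ms K (ms + 1) K 0 D.init (Y ω) :=
    Finset.expect_le_expect fun ω _ => (hs (Y ω)).1
  have hdep := out_dep F fl e ms K D.init
  have h3 : E (ms + 1) (out F fl e ms K (ms + 1) K 0 D.init) =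
      𝔼 u : Fin M → A, out F fl e ms K (ms + 1) K 0 D.init (Uf a0 M u) := by
    rw [← E_of_le (show ms + 1 ≤ M by omega) hdep]
    apply E_eq_expect
    exact hdep.mono fun l hl => by simp only [Set.mem_Iio] at hl ⊢; omega
  have h4 : 𝔼 u : Fin M → A, out F fl e ms K (ms + 1) K 0 D.init (Uf a0 M u) ≤
      𝔼 u : Fin M → A, (q (bitsOf bit B (comb π (Uf a0 M u) Z))
        (D.mem (bitsOf bit B (comb π (Uf a0 M u) Z)) n) +
        D.phi K (bitsOf bit B (comb π (Uf a0 M u) Z))) :=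
    Finset.expect_le_expect fun u _ => (hs _).2
  rw [Finset.expect_add_distrib] at h4
  unfold errK
  linarith

/-- The program that counts the changes. -/
noncomputable def WinMem.cnt (D : WinMem n L V) (K : ℕ) : WinMem n L (V × ℕ) where
  init := (D.init, 0)
  upd t x v := open Classical in
    (D.upd t x v.1, if D.cst t x then 0 else if D.upd t x v.1 = v.1 then v.2 else v.2 + 1)
  acc _ := {v | K ≤ v.2}
  upd_local t ht x x' h := by
    have h1 := D.upd_local t ht x x' h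
    have h2 : D.cst t x = D.cst t x' := by unfold WinMem.cst; rw [h1]
    funext v
    rw [h1]
    congr! 2
  acc_local _ _ _ := rfl

lemma WinMem.cnt_cst (D : WinMem n L V) (K t : ℕ) (x : ℕ → Bool) :
    (D.cnt K).cst t x ↔ D.cst t x := by
  classical
  constructor
  · rintro ⟨w, hw⟩
    refine ⟨w.1, fun v => ?_⟩
    have := hw (v, 0)
    rw [← this]
    rfl
  · rintro ⟨w, hw⟩
    refine ⟨(w, 0), fun v => ?_⟩
    have h : D.cst t x := ⟨w, hw⟩
    show (D.upd t x v.1, if D.cst t x then 0 else if D.upd t x v.1 = v.1 then v.2 else v.2 + 1) = _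
    rw [hw, if_pos h]

lemma WinMem.cnt_mem (D : WinMem n L V) (K : ℕ) (x : ℕ → Bool) (t : ℕ) :
    (D.cnt K).mem x t = (D.mem x t, D.changes x t) := by
  classical
  induction t with
  | zero => rfl
  | succ t ih =>
    rw [WinMem.mem, ih, WinMem.mem, WinMem.changes]
    rfl

lemma WinMem.cnt_changes (D : WinMem n L V) (K : ℕ) (x : ℕ → Bool) (t : ℕ) :
    (D.cnt K).changes x t = D.changes x t := by
  classical
  induction t with
  | zero => rfl
  | succ t ih =>
    rw [WinMem.changes, ih, WinMem.changes, D.cnt_mem]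
    have h1 : (∃ w, ∀ v, (D.cnt K).upd t x v = w) ↔ ∃ w, ∀ v, D.upd t x v = w := D.cnt_cst K t x
    by_cases h2 : ∃ w, ∀ v, D.upd t x v = w
    · rw [if_pos h2, if_pos (h1.mpr h2)]
    · rw [if_neg h2, if_neg (fun h => h2 (h1.mp h))]
      have h3 : ¬ D.cst t x := h2
      have h4 : (D.cnt K).upd t x (D.mem x t, D.changes x t) = (D.upd t x (D.mem x t),
        if D.upd t x (D.mem x t) = D.mem x t then D.changes x t else D.changes x t + 1) := by
        show (D.upd t x (D.mem x t), if D.cst t x then 0 else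
          if D.upd t x (D.mem x t) = D.mem x t then D.changes x t else D.changes x t + 1) = _
        rw [if_neg h3]
      rw [h4]
      by_cases h5 : D.upd t x (D.mem x t) = D.mem x t
      · rw [if_pos h5, if_pos (by rw [h5])]
      · rw [if_neg h5, if_neg (fun h => h5 (Prod.ext_iff.mp h).1)]

/-- The number of changes under a source with bounded independence. -/
theorem one_side_phi (D : WinMem n L V) {B : ℕ} (hL : L ≤ B) (hB : 0 < B) (hn1 : 1 ≤ n)
    (bit : A → ℕ → Bool) (a0 : A) (π : ℕ) (hπ : π < 2) (Z : ℕ → A) (M : ℕ) (hn : n < 2 * B * M)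
    (K : ℕ) (C : ℝ) (hC : 0 ≤ C) (t : ℕ) (heb : eb C t K ≤ 1) (Y : Ω → ℕ → A)
    (hY : KWI M (1 + (K + 1) * (2 * t + 1)) Y) :
    𝔼 ω, D.phi K (bitsOf bit B (comb π (Y ω) Z)) ≤
      2 * 𝔼 u : Fin M → A, D.phi K (bitsOf bit B (comb π (Uf a0 M u) Z)) + errK C t K := by
  classical
  have h := one_side_q (D.cnt K) hL hB hn1 bit a0 π hπ Z M hn K
    (fun _ v => if K ≤ v.2 then 1 else 0) (fun _ _ _ => rfl)
    (fun _ v => by split_ifs <;> norm_num) (fun _ v => by split_ifs <;> norm_num) C hC t heb Y hY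
  have h1 : ∀ x : ℕ → Bool, (if K ≤ ((D.cnt K).mem x n).2 then (1 : ℝ) else 0) = D.phi K x := by
    intro x
    rw [D.cnt_mem]
    rfl
  have h2 : ∀ x : ℕ → Bool, (D.cnt K).phi K x = D.phi K x := by
    intro x
    unfold WinMem.phi
    rw [D.cnt_changes]
  simp only [h1, h2] at h
  linarith

/-- Two independent copies. -/
theorem two_sides_q (D : WinMem n L V) {B : ℕ} (hL : L ≤ B) (hB : 0 < B) (hn1 : 1 ≤ n)
    (bit : A → ℕ → Bool) (a0 : A) (M : ℕ) (hn : n < 2 * B * M)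
    (K : ℕ) (q : (ℕ → Bool) → V → ℝ)
    (hq : ∀ x x' : ℕ → Bool, (∀ j, n ≤ j + L → j < n → x j = x' j) → q x = q x')
    (hq0 : ∀ x v, 0 ≤ q x v) (hq1 : ∀ x v, q x v ≤ 1)
    (C : ℝ) (hC : 0 ≤ C) (t : ℕ) (heb : eb C t K ≤ 1) (Y : Ω → ℕ → A)
    (hY : KWI M (1 + (K + 1) * (2 * t + 1)) Y) :
    𝔼 ω0, 𝔼 ω1, q (bitsOf bit B (comb 0 (Y ω0) (Y ω1)))
        (D.mem (bitsOf bit B (comb 0 (Y ω0) (Y ω1))) n) ≤
      𝔼 u0 : Fin M → A, 𝔼 u1 : Fin M → A, q (bitsOf bit B (comb 0 (Uf a0 M u0) (Uf a0 M u1)))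
        (D.mem (bitsOf bit B (comb 0 (Uf a0 M u0) (Uf a0 M u1))) n) +
      3 * 𝔼 u0 : Fin M → A, 𝔼 u1 : Fin M → A,
        D.phi K (bitsOf bit B (comb 0 (Uf a0 M u0) (Uf a0 M u1))) + 3 * errK C t K := by
  set G : (ℕ → A) → (ℕ → A) → ℝ := fun X Z => q (bitsOf bit B (comb 0 X Z))
    (D.mem (bitsOf bit B (comb 0 X Z)) n) with hG
  set H : (ℕ → A) → (ℕ → A) → ℝ := fun X Z => D.phi K (bitsOf bit B (comb 0 X Z)) with hH
  have hne : Nonempty A := ⟨a0⟩
  -- replace the first copy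
  have h1 : 𝔼 ω1, 𝔼 ω0, G (Y ω0) (Y ω1) ≤ 𝔼 ω1, (𝔼 u0 : Fin M → A, G (Uf a0 M u0) (Y ω1) +
      𝔼 u0 : Fin M → A, H (Uf a0 M u0) (Y ω1) + errK C t K) :=
    Finset.expect_le_expect fun ω1 _ =>
      one_side_q D hL hB hn1 bit a0 0 (by norm_num) (Y ω1) M hn K q hq hq0 hq1 C hC t heb Y hY
  rw [Finset.expect_add_distrib, Finset.expect_add_distrib, Fintype.expect_const] at h1
  -- replace the second copy
  have h2 : 𝔼 u0 : Fin M → A, 𝔼 ω1, G (Uf a0 M u0) (Y ω1) ≤
      𝔼 u0 : Fin M → A, (𝔼 u1 : Fin M → A, G (Uf a0 M u0) (Uf a0 M u1) +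
      𝔼 u1 : Fin M → A, H (Uf a0 M u0) (Uf a0 M u1) + errK C t K) := by
    refine Finset.expect_le_expect fun u0 _ => ?_
    simp only [hG, hH, comb_swap (Uf a0 M u0)]
    exact one_side_q D hL hB hn1 bit a0 1 (by norm_num) (Uf a0 M u0) M hn K q hq hq0 hq1 C hC t
      heb Y hY
  rw [Finset.expect_add_distrib, Finset.expect_add_distrib, Fintype.expect_const] at h2
  have h3 : 𝔼 u0 : Fin M → A, 𝔼 ω1, H (Uf a0 M u0) (Y ω1) ≤
      𝔼 u0 : Fin M → A, (2 * 𝔼 u1 : Fin M → A, H (Uf a0 M u0) (Uf a0 M u1) + errK C t K) := by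
    refine Finset.expect_le_expect fun u0 _ => ?_
    simp only [hH, comb_swap (Uf a0 M u0)]
    exact one_side_phi D hL hB hn1 bit a0 1 (by norm_num) (Uf a0 M u0) M hn K C hC t heb Y hY
  rw [Finset.expect_add_distrib, Fintype.expect_const, ← Finset.mul_expect] at h3
  have e1 : 𝔼 ω1, 𝔼 ω0, G (Y ω0) (Y ω1) = 𝔼 ω0, 𝔼 ω1, G (Y ω0) (Y ω1) := Finset.expect_comm _ _ _
  have e2 : 𝔼 ω1, 𝔼 u0 : Fin M → A, G (Uf a0 M u0) (Y ω1) =
      𝔼 u0 : Fin M → A, 𝔼 ω1, G (Uf a0 M u0) (Y ω1) := Finset.expect_comm _ _ _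
  have e3 : 𝔼 ω1, 𝔼 u0 : Fin M → A, H (Uf a0 M u0) (Y ω1) =
      𝔼 u0 : Fin M → A, 𝔼 ω1, H (Uf a0 M u0) (Y ω1) := Finset.expect_comm _ _ _
  rw [e1, e2, e3] at h1
  linarith

end

end Pool.Agent.H73.FW
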